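import Mathlib

/-!
# The divisibility condition for Steiner systems `S(n,q,2)` and its residue classes
-/

set_option autoImplicit false

namespace Pool.Agent.Q129.Stn

open Finset

/-- The divisibility condition for `(n, q, 2)`. -/
def Divisible (n q : ℕ) : Prop := ∀ i < 2, (q - i).choose (2 - i) ∣ (n - i).choose (2 - i)

/-- The divisibility condition in terms of the replication number `(n-1)/(q-1)`. -/
def Dv (n q : ℕ) : Prop := (q - 1) ∣ (n - 1) ∧ q ∣ ((n - 1) / (q - 1)) * ((n - 1) / (q - 1) - 1)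

instance (n q : ℕ) : Decidable (Dv n q) := by unfold Dv; infer_instance

theorem choose_two_mul (k : ℕ) : (k + 1).choose 2 * 2 = (k + 1) * k := by
  rw [Nat.choose_two_right]
  simp only [Nat.add_sub_cancel]
  refine Nat.div_mul_cancel ?_
  rw [mul_comm]
  exact (Nat.even_mul_succ_self k).two_dvd

theorem key_sum (k m : ℕ) : (k * m + 1) * m + m * (m - 1) = (k + 1) * (m * m) := by
  rcases m with _ | m
  · simp
  · simp only [Nat.add_sub_cancel]; ring

theorem divisible_iff {n q : ℕ} (hq : 2 ≤ q) (hn : 1 ≤ n) : Divisible n q ↔ Dv n q := by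
  obtain ⟨k, rfl⟩ : ∃ k, q = k + 1 := ⟨q - 1, by omega⟩
  obtain ⟨t, rfl⟩ : ∃ t, n = t + 1 := ⟨n - 1, by omega⟩
  have hk : 0 < k := by omega
  have e1 : Divisible (t + 1) (k + 1) ↔ ((k + 1).choose 2 ∣ (t + 1).choose 2 ∧ k ∣ t) := by
    unfold Divisible
    constructor
    · intro h
      have h0 := h 0 (by norm_num)
      have h1 := h 1 (by norm_num)
      exact ⟨by simpa using h0, by simpa using h1⟩
    · rintro ⟨h0, h1⟩ i hi
      interval_cases i
      · simpa using h0
      · simpa using h1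
  rw [e1]
  unfold Dv
  simp only [Nat.add_sub_cancel]
  constructor
  · rintro ⟨h0, m, rfl⟩
    refine ⟨dvd_mul_right _ _, ?_⟩
    rw [Nat.mul_div_cancel_left _ hk]
    have h2 : (k + 1) * k ∣ (k * m + 1) * (k * m) := by
      rw [← choose_two_mul, ← choose_two_mul]
      exact Nat.mul_dvd_mul_right h0 2
    have h3 : (k + 1) ∣ (k * m + 1) * m := by
      have : (k + 1) * k ∣ (k * m + 1) * m * k := by
        have e : (k * m + 1) * m * k = (k * m + 1) * (k * m) := by ring
        rw [e]; exact h2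
      exact Nat.dvd_of_mul_dvd_mul_right hk this
    have h4 := key_sum k m
    have h5 : (k + 1) ∣ (k * m + 1) * m + m * (m - 1) := by rw [h4]; exact dvd_mul_right _ _
    exact (Nat.dvd_add_right h3).1 h5
  · rintro ⟨⟨m, rfl⟩, h2⟩
    rw [Nat.mul_div_cancel_left _ hk] at h2
    refine ⟨?_, dvd_mul_right _ _⟩
    have h4 := key_sum k m
    have h5 : (k + 1) ∣ (k * m + 1) * m + m * (m - 1) := by rw [h4]; exact dvd_mul_right _ _
    have h3 : (k + 1) ∣ (k * m + 1) * m := (Nat.dvd_add_left h2).1 h5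
    have h6 : (k + 1) * k ∣ (k * m + 1) * (k * m) := by
      have e : (k * m + 1) * (k * m) = (k * m + 1) * m * k := by ring
      rw [e]
      exact Nat.mul_dvd_mul_right h3 k
    rw [← choose_two_mul, ← choose_two_mul] at h6
    exact Nat.dvd_of_mul_dvd_mul_right (by norm_num) h6

/-- If `q ∣ m (m - 1)` and `a = gcd m q`, then `q / a` divides `m - 1` and is coprime to `a`. -/
theorem gcd_facts {m q a : ℕ} (hq : 0 < q) (h : q ∣ m * (m - 1)) (ha : Nat.gcd m q = a) :
    a ∣ m ∧ (q / a) ∣ (m - 1) ∧ a * (q / a) = q := by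
  subst ha
  have h1 : Nat.gcd m q ∣ m := Nat.gcd_dvd_left _ _
  have h2 : Nat.gcd m q ∣ q := Nat.gcd_dvd_right _ _
  have hg : 0 < Nat.gcd m q := Nat.gcd_pos_of_pos_right _ hq
  refine ⟨h1, ?_, Nat.mul_div_cancel' h2⟩
  have hc : Nat.Coprime (m / Nat.gcd m q) (q / Nat.gcd m q) := Nat.coprime_div_gcd_div_gcd hg
  have h3 : (q / Nat.gcd m q) ∣ (m / Nat.gcd m q) * (m - 1) := by
    have e : m * (m - 1) = Nat.gcd m q * ((m / Nat.gcd m q) * (m - 1)) := by
      rw [← mul_assoc, Nat.mul_div_cancel' h1]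
    rw [e] at h
    have e2 : q = Nat.gcd m q * (q / Nat.gcd m q) := (Nat.mul_div_cancel' h2).symm
    exact Nat.dvd_of_mul_dvd_mul_left hg (by rwa [← e2])
  exact (Nat.Coprime.dvd_mul_left hc.symm).1 h3

theorem congr_of_gcd {m m' q : ℕ} (hq : 0 < q) (hm : 1 ≤ m) (hm' : 1 ≤ m')
    (h : q ∣ m * (m - 1)) (h' : q ∣ m' * (m' - 1)) (hg : Nat.gcd m q = Nat.gcd m' q) :
    m ≡ m' [MOD q] := by
  obtain ⟨a1, b1, c1⟩ := gcd_facts hq h rfl
  obtain ⟨a2, b2, c2⟩ := gcd_facts hq h' rfl
  rw [← hg] at a2 b2 c2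
  set a := Nat.gcd m q with ha
  have hcop : Nat.Coprime a (q / a) := by
    have h5 : Nat.Coprime m (m - 1) := by
      have : Nat.Coprime (m - 1 + 1) (m - 1) := by simp
      rwa [Nat.sub_add_cancel hm] at this
    exact Nat.Coprime.of_dvd a1 b1 h5
  rw [← c1]
  rw [← Nat.modEq_and_modEq_iff_modEq_mul hcop]
  constructor
  · exact ((Nat.modEq_zero_iff_dvd.2 a1).trans (Nat.modEq_zero_iff_dvd.2 a2).symm)
  · have e1 : 1 ≡ m [MOD (q / a)] := (Nat.modEq_iff_dvd' hm).2 b1
    have e2 : 1 ≡ m' [MOD (q / a)] := (Nat.modEq_iff_dvd' hm').2 b2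
    exact e1.symm.trans e2

/-- Among `0, …, M` at most `d(q) (M/q + 2)` numbers `m` satisfy `q ∣ m (m-1)`. -/
theorem count_le (q M : ℕ) (hq : 0 < q) :
    ((Finset.Icc 1 M).filter (fun m => q ∣ m * (m - 1))).card ≤
      q.divisors.card * (M / q + 1) := by
  classical
  have h1 : ((Finset.Icc 1 M).filter (fun m => q ∣ m * (m - 1))).card =
      ∑ a ∈ q.divisors, (((Finset.Icc 1 M).filter (fun m => q ∣ m * (m - 1))).filter
        (fun m => Nat.gcd m q = a)).card := by
    refine Finset.card_eq_sum_card_fiberwise ?_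
    intro m _
    simp only [Finset.mem_coe, Nat.mem_divisors]
    exact ⟨Nat.gcd_dvd_right _ _, by omega⟩
  rw [h1, ← smul_eq_mul]
  refine Finset.sum_le_card_nsmul _ _ _ ?_
  intro a _
  set T := ((Finset.Icc 1 M).filter (fun m => q ∣ m * (m - 1))).filter
        (fun m => Nat.gcd m q = a) with hT
  rcases T.eq_empty_or_nonempty with he | ⟨m0, hm0⟩
  · rw [he]; simp
  · have hle : T.card ≤ ((Finset.range M).filter (fun x => x ≡ m0 - 1 [MOD q])).card := by
      refine Finset.card_le_card_of_injOn (fun m => m - 1) ?_ ?_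
      · intro m hm
        rw [hT] at hm0
        rw [hT] at hm
        simp only [Finset.coe_filter, Finset.mem_filter, Finset.mem_Icc, Set.mem_setOf_eq] at hm hm0
        simp only [Finset.coe_filter, Finset.mem_range, Set.mem_setOf_eq]
        refine ⟨by omega, ?_⟩
        have hc := congr_of_gcd hq (by omega) (by omega) hm.1.2 hm0.1.2 (by rw [hm.2, hm0.2])
        refine Nat.ModEq.add_right_cancel' 1 ?_
        rwa [Nat.sub_add_cancel hm.1.1.1, Nat.sub_add_cancel hm0.1.1.1]
      · intro m hm m' hm' he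
        rw [hT] at hm hm'
        simp only [Finset.coe_filter, Finset.mem_filter, Finset.mem_Icc, Set.mem_setOf_eq] at hm hm'
        simp only at he
        omega
    refine hle.trans ?_
    rw [← Nat.count_eq_card_filter_range, Nat.count_modEq_card _ hq]
    split_ifs <;> omega

end Pool.Agent.Q129.Stn
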