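import Pool.Agent.Q129.Stn.Law

/-!
# The limiting distribution of the number of block sizes
-/

set_option autoImplicit false

namespace Pool.Agent.Q129.Stn

open Finset Filter Topology

theorem periodic_density (P : ℕ → Prop) [DecidablePred P] (a : ℕ) (ha : 0 < a)
    (hP : Function.Periodic P a) :
    Tendsto (fun N : ℕ => (Nat.count P N : ℝ) / N) atTop (𝓝 ((Nat.count P a : ℝ) / a)) := by
  have hmul : ∀ k, Nat.count P (a * k) = k * Nat.count P a := by
    intro k
    induction k with
    | zero => simp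
    | succ k ih =>
      rw [Nat.mul_succ, Nat.count_add, ih, Nat.succ_mul]
      congr 1
      rw [Nat.count_eq_card_filter_range, Nat.count_eq_card_filter_range]
      congr 1
      refine Finset.filter_congr fun m _ => ?_
      have := hP.nat_mul k m
      rw [eq_iff_iff] at this
      rw [add_comm, mul_comm]
      simpa using this
  set c := Nat.count P a with hc
  have ha0 : (0 : ℝ) < a := by exact_mod_cast ha
  have hlim : Tendsto (fun N : ℕ => (c : ℝ) / (N : ℝ)) atTop (𝓝 0) :=
    tendsto_const_div_atTop_nhds_zero_nat _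
  rw [tendsto_iff_norm_sub_tendsto_zero]
  refine squeeze_zero' (Eventually.of_forall fun N => norm_nonneg _) ?_ hlim
  filter_upwards [eventually_ge_atTop 1] with N hN
  have hN0 : (0 : ℝ) < N := by exact_mod_cast hN
  set k := N / a with hk
  have h1 : Nat.count P (a * k) ≤ Nat.count P N := Nat.count_monotone _ (Nat.mul_div_le _ _)
  have h2 : Nat.count P N ≤ Nat.count P (a * (k + 1)) :=
    Nat.count_monotone _ (Nat.lt_mul_div_succ _ ha).le
  rw [hmul] at h1 h2
  have h1R : (k : ℝ) * c ≤ (Nat.count P N : ℝ) := by exact_mod_cast h1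
  have h2R : (Nat.count P N : ℝ) ≤ ((k : ℝ) + 1) * c := by exact_mod_cast h2
  have k1 : (k : ℝ) ≤ (N : ℝ) / a := Nat.cast_div_le
  have k2 : (N : ℝ) / a ≤ (k : ℝ) + 1 := by
    rw [div_le_iff₀ ha0]
    have : N < a * (k + 1) := Nat.lt_mul_div_succ _ ha
    have h3 : (N : ℝ) ≤ (a : ℝ) * ((k : ℝ) + 1) := by exact_mod_cast this.le
    linarith
  have hc0 : (0 : ℝ) ≤ c := by positivity
  have e : (Nat.count P N : ℝ) / N - (c : ℝ) / a = ((Nat.count P N : ℝ) - (N : ℝ) / a * c) / N := by
    field_simp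
  rw [e, Real.norm_eq_abs, abs_div, abs_of_pos hN0]
  refine div_le_div_of_nonneg_right ?_ hN0.le
  rw [abs_le]
  constructor <;> nlinarith

theorem dv_periodic (q : ℕ) (hq : 2 ≤ q) :
    Function.Periodic (fun t => Dv (t + 1) q) (q * (q - 1)) := by
  intro t
  simp only [eq_iff_iff]
  unfold Dv
  simp only [Nat.add_sub_cancel]
  rw [Nat.add_mul_div_right _ _ (by omega : 0 < q - 1)]
  have h1 : (q - 1) ∣ t + q * (q - 1) ↔ (q - 1) ∣ t :=
    (Nat.dvd_add_left (dvd_mul_left _ _))
  have h2 := pm_periodic q (t / (q - 1))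
  rw [eq_iff_iff] at h2
  unfold Pm at h2
  rw [h1, h2]

/-- The number of divisible block sizes up to `Q`. -/
def fQ (Q t : ℕ) : ℕ := ((Finset.Icc 3 Q).filter (fun q => Dv (t + 1) q)).card

/-- A common period. -/
def per (Q : ℕ) : ℕ := ∏ q ∈ Finset.Icc 3 Q, q * (q - 1)

theorem per_pos (Q : ℕ) : 0 < per Q := by
  unfold per
  refine Finset.prod_pos fun q hq => ?_
  have := (Finset.mem_Icc.1 hq).1
  exact Nat.mul_pos (by omega) (by omega)

theorem fQ_periodic (Q k : ℕ) : Function.Periodic (fun t => fQ Q t = k) (per Q) := by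
  intro t
  have : fQ Q (t + per Q) = fQ Q t := by
    unfold fQ
    congr 1
    refine Finset.filter_congr fun q hq => ?_
    have hd : q * (q - 1) ∣ per Q := Finset.dvd_prod_of_mem (fun q => q * (q - 1)) hq
    obtain ⟨c, hc⟩ := hd
    have h := (dv_periodic q (by have := (Finset.mem_Icc.1 hq).1; omega)).nat_mul c t
    simp only [eq_iff_iff] at h
    rw [hc, mul_comm]
    simpa using h
  simp only [this]

/-- The number of orders up to `N` with exactly `k` nontrivial block sizes. -/
noncomputable def cnt (k N : ℕ) : ℕ := {n : ℕ | 1 ≤ n ∧ n ≤ N ∧ sizes n = k}.ncard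

theorem cnt_eq (k N : ℕ) : cnt k N = ((Finset.Icc 1 N).filter (fun n => sizes n = k)).card := by
  unfold cnt
  rw [← Set.ncard_coe_finset]
  congr 1
  ext n
  simp only [Finset.coe_filter, Finset.mem_Icc, Set.mem_ofPred_eq]
  tauto

theorem count_fQ (Q k N : ℕ) :
    Nat.count (fun t => fQ Q t = k) N =
      ((Finset.Icc 1 N).filter (fun n => fQ Q (n - 1) = k)).card := by
  rw [Nat.count_eq_card_filter_range]
  refine Finset.card_bij (fun t _ => t + 1) ?_ ?_ ?_
  · intro t ht
    rw [Finset.mem_filter, Finset.mem_range] at ht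
    rw [Finset.mem_filter, Finset.mem_Icc]
    exact ⟨⟨by omega, by omega⟩, by simpa using ht.2⟩
  · intro a _ b _ h
    omega
  · intro n hn
    rw [Finset.mem_filter, Finset.mem_Icc] at hn
    refine ⟨n - 1, ?_, by omega⟩
    rw [Finset.mem_filter, Finset.mem_range]
    exact ⟨by omega, hn.2⟩

/-- A threshold beyond which all block sizes up to `Q` are decided by divisibility. -/
def thr (Q : ℕ) : ℕ := Q ^ (10 ^ 7 * Q) + Q + 1

theorem sizes_ne {Q n N : ℕ} (hn : thr Q ≤ n) (hnN : n ≤ N) (hne : sizes n ≠ fQ Q (n - 1)) :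
    n ∈ (pairsAbove Q N).image Prod.fst := by
  classical
  by_contra hcon
  apply hne
  have hn1 : 1 ≤ n := by unfold thr at hn; omega
  have hQn : Q < n := by unfold thr at hn; omega
  have hno : ∀ q, Q < q → q < n → ¬ HasSystem n q := by
    intro q h1 h2 h3
    apply hcon
    rw [Finset.mem_image]
    refine ⟨(n, q), ?_, rfl⟩
    simp only [pairsAbove, Finset.mem_filter, Finset.mem_product, Finset.mem_Icc]
    by_cases hq2 : 2 ≤ q
    · exact ⟨⟨⟨hn1, hnN⟩, by omega, by omega⟩, h2,
        (divisible_iff hq2 hn1).1 (divisible_of_hasSystem hn1 h3)⟩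
    · -- then `q ≤ 1` and `Q = 0`
      refine ⟨⟨⟨hn1, hnN⟩, by omega, by omega⟩, h2, ?_⟩
      have hq1 : q = 1 := by omega
      subst hq1
      have h4 := divisible_of_hasSystem hn1 h3
      have h5 := h4 1 (by norm_num)
      have h6 : n - 1 = 0 := by simpa using h5
      unfold Dv
      rw [h6]
      simp
  rw [sizes_eq n N hnN]
  unfold fQ
  congr 1
  ext q
  rw [Finset.mem_filter, Finset.mem_filter, Finset.mem_Icc, Finset.mem_Icc, Nat.sub_add_cancel hn1]
  constructor
  · rintro ⟨⟨h1, h2⟩, h3, h4⟩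
    have hqQ : q ≤ Q := by
      by_contra hc
      exact hno q (by omega) h3 h4
    exact ⟨⟨h1, hqQ⟩, (divisible_iff (by omega) hn1).1 (divisible_of_hasSystem hn1 h4)⟩
  · rintro ⟨⟨h1, h2⟩, h3⟩
    refine ⟨⟨h1, by omega⟩, by omega, ?_⟩
    rw [hasSystem_iff_of_large (by omega)]
    · exact (divisible_iff (by omega) hn1).2 h3
    · have : q ^ (10 ^ 7 * q) ≤ Q ^ (10 ^ 7 * Q) := by
        calc q ^ (10 ^ 7 * q) ≤ Q ^ (10 ^ 7 * q) := Nat.pow_le_pow_left h2 _
          _ ≤ Q ^ (10 ^ 7 * Q) := Nat.pow_le_pow_right (by omega) (Nat.mul_le_mul_left _ h2)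
      unfold thr at hn
      omega

theorem cnt_close (Q k N : ℕ) :
    |(cnt k N : ℝ) - Nat.count (fun t => fQ Q t = k) N| ≤ thr Q + (pairsAbove Q N).card := by
  classical
  rw [cnt_eq, count_fQ]
  set S := (Finset.Icc 1 N).filter (fun n => sizes n = k)
  set R := (Finset.Icc 1 N).filter (fun n => fQ Q (n - 1) = k)
  set D := Finset.range (thr Q) ∪ (pairsAbove Q N).image Prod.fst with hD
  have h1 : S ⊆ R ∪ D := by
    intro n hn
    rw [Finset.mem_filter, Finset.mem_Icc] at hn
    by_cases he : sizes n = fQ Q (n - 1)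
    · rw [Finset.mem_union, Finset.mem_filter, Finset.mem_Icc]
      exact Or.inl ⟨hn.1, by rw [← he]; exact hn.2⟩
    · rw [Finset.mem_union, hD, Finset.mem_union, Finset.mem_range]
      right
      rcases Nat.lt_or_ge n (thr Q) with h | h
      · exact Or.inl h
      · exact Or.inr (sizes_ne h hn.1.2 he)
  have h2 : R ⊆ S ∪ D := by
    intro n hn
    rw [Finset.mem_filter, Finset.mem_Icc] at hn
    by_cases he : sizes n = fQ Q (n - 1)
    · rw [Finset.mem_union, Finset.mem_filter, Finset.mem_Icc]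
      exact Or.inl ⟨hn.1, by rw [he]; exact hn.2⟩
    · rw [Finset.mem_union, hD, Finset.mem_union, Finset.mem_range]
      right
      rcases Nat.lt_or_ge n (thr Q) with h | h
      · exact Or.inl h
      · exact Or.inr (sizes_ne h hn.1.2 he)
  have hDc : D.card ≤ thr Q + (pairsAbove Q N).card := by
    refine (Finset.card_union_le _ _).trans ?_
    rw [Finset.card_range]
    exact Nat.add_le_add_left Finset.card_image_le _
  have h3 := (Finset.card_le_card h1).trans (Finset.card_union_le _ _)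
  have h4 := (Finset.card_le_card h2).trans (Finset.card_union_le _ _)
  have h5 : (S.card : ℝ) ≤ R.card + (thr Q + (pairsAbove Q N).card) := by
    exact_mod_cast h3.trans (Nat.add_le_add_left hDc _)
  have h6 : (R.card : ℝ) ≤ S.card + (thr Q + (pairsAbove Q N).card) := by
    exact_mod_cast h4.trans (Nat.add_le_add_left hDc _)
  rw [abs_le]
  constructor <;> linarith

theorem cnt_tendsto (k : ℕ) : ∃ p : ℝ, Tendsto (fun N : ℕ => (cnt k N : ℝ) / N) atTop (𝓝 p) := by
  refine cauchySeq_tendsto_of_complete (Metric.cauchySeq_iff.2 fun ε hε => ?_)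
  have t2 := eta_tendsto
  rw [Metric.tendsto_atTop] at t2
  obtain ⟨Q2, hQ2⟩ := t2 (ε / 8) (by linarith)
  set Q := max 3 Q2 with hQ
  have a2 := hQ2 Q (le_max_right _ _)
  have t3 := periodic_density (fun t => fQ Q t = k) (per Q) (per_pos Q) (fQ_periodic Q k)
  rw [Metric.tendsto_atTop] at t3
  obtain ⟨N3, hN3⟩ := t3 (ε / 8) (by linarith)
  have t4 := rem_tendsto
  rw [Metric.tendsto_atTop] at t4
  obtain ⟨N4, hN4⟩ := t4 (ε / 8) (by linarith)
  have t5 : Tendsto (fun N : ℕ => (thr Q : ℝ) / (N : ℝ)) atTop (𝓝 0) :=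
    tendsto_const_div_atTop_nhds_zero_nat _
  rw [Metric.tendsto_atTop] at t5
  obtain ⟨N5, hN5⟩ := t5 (ε / 8) (by linarith)
  set c := ((Nat.count (fun t => fQ Q t = k) (per Q) : ℝ) / per Q) with hc
  have key : ∀ N, max 1 (max N3 (max N4 N5)) ≤ N → |(cnt k N : ℝ) / N - c| < ε / 2 := by
    intro N hN
    have b3 := hN3 N (by omega)
    have b4 := hN4 N (by omega)
    have b5 := hN5 N (by omega)
    have hN0 : (0 : ℝ) < N := by exact_mod_cast (by omega : 0 < N)
    have h1 := cnt_close Q k N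
    have h2 := pairs_ratio Q N (by omega) (by omega)
    have h3 : |(cnt k N : ℝ) / N - (Nat.count (fun t => fQ Q t = k) N : ℝ) / N| ≤
        (thr Q : ℝ) / N + (eta Q + rem N) := by
      rw [← sub_div, abs_div, abs_of_pos hN0]
      calc _ ≤ ((thr Q : ℝ) + (pairsAbove Q N).card) / N := div_le_div_of_nonneg_right h1 hN0.le
        _ = (thr Q : ℝ) / N + ((pairsAbove Q N).card : ℝ) / N := by rw [add_div]
        _ ≤ _ := by linarith
    rw [Real.dist_eq] at b3 b4 b5 a2
    have e1 : eta Q < ε / 8 := by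
      have := (abs_lt.1 a2).2; linarith
    have e2 : rem N < ε / 8 := by
      have := (abs_lt.1 b4).2; linarith
    have e3 : (thr Q : ℝ) / N < ε / 8 := by
      have := (abs_lt.1 b5).2; linarith
    have e4 := abs_lt.1 b3
    have e5 := abs_le.1 h3
    rw [abs_lt]
    constructor <;> linarith [e4.1, e4.2, e5.1, e5.2]
  refine ⟨max 1 (max N3 (max N4 N5)), fun m hm n hn => ?_⟩
  have h1 := abs_lt.1 (key m hm)
  have h2 := abs_lt.1 (key n hn)
  rw [Real.dist_eq, abs_lt]
  constructor <;> linarith [h1.1, h1.2, h2.1, h2.2]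

/-- The limit law. -/
theorem limit_law {μ : ℝ} (hμ : HasSum dens μ) : ∃ p : ℕ → ℝ,
    (∀ k, Tendsto (fun N : ℕ => (cnt k N : ℝ) / N) atTop (𝓝 (p k))) ∧ HasSum p 1 := by
  classical
  choose p hp using cnt_tendsto
  refine ⟨p, hp, ?_⟩
  have hp0 : ∀ k, 0 ≤ p k := fun k => ge_of_tendsto' (hp k) fun N => by positivity
  rw [hasSum_iff_tendsto_nat_of_nonneg hp0]
  have hsum : ∀ K, Tendsto (fun N : ℕ => ∑ k ∈ Finset.range K, (cnt k N : ℝ) / N) atTop
      (𝓝 (∑ k ∈ Finset.range K, p k)) := fun K => tendsto_finsetSum _ fun k _ => hp k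
  have hcount : ∀ K N, ∑ k ∈ Finset.range K, cnt k N =
      ((Finset.Icc 1 N).filter (fun n => sizes n < K)).card := by
    intro K N
    rw [Finset.card_eq_sum_card_fiberwise (f := sizes) (t := Finset.range K)]
    · refine Finset.sum_congr rfl fun k hk => ?_
      rw [cnt_eq]
      congr 1
      ext n
      rw [Finset.mem_range] at hk
      simp only [Finset.mem_filter]
      constructor
      · rintro ⟨h1, h2⟩; exact ⟨⟨h1, by omega⟩, h2⟩
      · rintro ⟨⟨h1, _⟩, h2⟩; exact ⟨h1, h2⟩
    · intro n hn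
      rw [Finset.mem_coe, Finset.mem_filter] at hn
      rw [Finset.mem_coe, Finset.mem_range]
      exact hn.2
  have hle : ∀ K N, ∑ k ∈ Finset.range K, (cnt k N : ℝ) / N ≤ 1 := by
    intro K N
    rw [← Finset.sum_div]
    rcases Nat.eq_zero_or_pos N with h | h
    · subst h; simp
    · rw [div_le_one (by exact_mod_cast h)]
      have h1 := hcount K N
      have h2 : ((Finset.Icc 1 N).filter (fun n => sizes n < K)).card ≤ N := by
        have := Finset.card_filter_le (Finset.Icc 1 N) (fun n => sizes n < K)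
        rwa [Nat.card_Icc, Nat.add_sub_cancel] at this
      rw [← h1] at h2
      exact_mod_cast h2
  have hge : ∀ K : ℕ, 0 < K → ∀ N : ℕ, 1 ≤ N →
      1 - ((∑ n ∈ Finset.Icc 1 N, (sizes n : ℝ)) / N) / K ≤
        ∑ k ∈ Finset.range K, (cnt k N : ℝ) / N := by
    intro K hK N hN
    have hN0 : (0 : ℝ) < N := by exact_mod_cast hN
    have hK0 : (0 : ℝ) < K := by exact_mod_cast hK
    rw [← Finset.sum_div]
    have h1 := hcount K N
    have h2 : N = ((Finset.Icc 1 N).filter (fun n => sizes n < K)).card +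
        ((Finset.Icc 1 N).filter (fun n => ¬ sizes n < K)).card := by
      rw [Finset.card_filter_add_card_filter_not, Nat.card_Icc, Nat.add_sub_cancel]
    have h3 : K * ((Finset.Icc 1 N).filter (fun n => ¬ sizes n < K)).card ≤
        ∑ n ∈ Finset.Icc 1 N, sizes n := by
      calc K * ((Finset.Icc 1 N).filter (fun n => ¬ sizes n < K)).card
          = ∑ n ∈ (Finset.Icc 1 N).filter (fun n => ¬ sizes n < K), K := by
            rw [Finset.sum_const, smul_eq_mul, mul_comm]
        _ ≤ ∑ n ∈ (Finset.Icc 1 N).filter (fun n => ¬ sizes n < K), sizes n := by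
            refine Finset.sum_le_sum fun n hn => ?_
            have := (Finset.mem_filter.1 hn).2
            omega
        _ ≤ ∑ n ∈ Finset.Icc 1 N, sizes n :=
            Finset.sum_le_sum_of_subset (Finset.filter_subset _ _)
    set a := ((Finset.Icc 1 N).filter (fun n => ¬ sizes n < K)).card with ha
    have h2R : (N : ℝ) = (∑ k ∈ Finset.range K, (cnt k N : ℝ)) + a := by
      have : N = ∑ k ∈ Finset.range K, cnt k N + a := by rw [h1]; exact h2
      exact_mod_cast this
    have h3R : (K : ℝ) * a ≤ ∑ n ∈ Finset.Icc 1 N, (sizes n : ℝ) := by exact_mod_cast h3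
    have h4 : (a : ℝ) ≤ (∑ n ∈ Finset.Icc 1 N, (sizes n : ℝ)) / K := by
      rw [le_div_iff₀ hK0]; linarith
    have h5 : (∑ n ∈ Finset.Icc 1 N, (sizes n : ℝ)) / N / K =
        (∑ n ∈ Finset.Icc 1 N, (sizes n : ℝ)) / K / N := by
      rw [div_div, div_div, mul_comm]
    rw [h5, le_div_iff₀ hN0, sub_mul, one_mul, div_mul_cancel₀ _ hN0.ne']
    linarith
  have hlim1 : ∀ K : ℕ, ∑ k ∈ Finset.range K, p k ≤ 1 := fun K =>
    le_of_tendsto' (hsum K) (hle K)
  have hlim2 : ∀ K : ℕ, 0 < K → 1 - μ / K ≤ ∑ k ∈ Finset.range K, p k := by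
    intro K hK
    have t1 := mean_sizes hμ
    have t2 : Tendsto (fun N : ℕ => 1 - ((∑ n ∈ Finset.Icc 1 N, (sizes n : ℝ)) / N) / K) atTop
        (𝓝 (1 - μ / K)) := (tendsto_const_nhds).sub (t1.div_const _)
    refine le_of_tendsto_of_tendsto t2 (hsum K) ?_
    filter_upwards [eventually_ge_atTop 1] with N hN
    exact hge K hK N hN
  have t3 : Tendsto (fun K : ℕ => 1 - μ / (K : ℝ)) atTop (𝓝 (1 - 0)) :=
    tendsto_const_nhds.sub (tendsto_const_div_atTop_nhds_zero_nat μ)
  rw [sub_zero] at t3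
  refine tendsto_of_tendsto_of_tendsto_of_le_of_le' t3 tendsto_const_nhds ?_
    (Eventually.of_forall hlim1)
  filter_upwards [eventually_ge_atTop 1] with K hK
  exact hlim2 K hK

end Pool.Agent.Q129.Stn
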