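import Pool.Agent.Q129.Stn.Mean

/-!
# The limit law of the number of block sizes
-/

set_option autoImplicit false

namespace Pool.Agent.Q129.Stn

open Finset Filter Topology

/-- The number of block sizes `2 < q < n` for which a Steiner system `S(n,q,2)` exists. -/
noncomputable def sizes (n : ℕ) : ℕ := {q : ℕ | 2 < q ∧ q < n ∧ HasSystem n q}.ncard

open Classical in
theorem sizes_eq (n N : ℕ) (hn : n ≤ N) :
    sizes n = ((Finset.Icc 3 N).filter (fun q => q < n ∧ HasSystem n q)).card := by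
  unfold sizes
  rw [← Set.ncard_coe_finset]
  congr 1
  ext q
  simp only [Finset.coe_filter, Finset.mem_Icc, Set.mem_ofPred_eq]
  constructor
  · rintro ⟨h1, h2, h3⟩
    exact ⟨⟨by omega, by omega⟩, h2, h3⟩
  · rintro ⟨h1, h2, h3⟩
    exact ⟨by omega, h2, h3⟩

theorem sum_sizes (N : ℕ) :
    ∑ n ∈ Finset.Icc 1 N, sizes n = ∑ q ∈ Finset.Icc 3 N, good q N := by
  classical
  have h1 : ∀ n ∈ Finset.Icc 1 N, sizes n =
      ∑ q ∈ Finset.Icc 3 N, if q < n ∧ HasSystem n q then 1 else 0 := by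
    intro n hn
    rw [sizes_eq n N (Finset.mem_Icc.1 hn).2, Finset.card_filter]
  rw [Finset.sum_congr rfl h1, Finset.sum_comm]
  refine Finset.sum_congr rfl fun q _ => ?_
  unfold good
  rw [Finset.card_filter]

theorem good_tail (Q N : ℕ) (hQ : 1 ≤ Q) :
    ∑ q ∈ Finset.Icc (Q + 1) N, good q N ≤ (pairsAbove Q N).card := by
  classical
  unfold good
  rw [← Finset.card_sigma]
  refine Finset.card_le_card_of_injOn (fun p => (p.2, p.1)) ?_ ?_
  · rintro ⟨q, n⟩ hp
    simp only [Finset.mem_coe, Finset.mem_sigma, Finset.mem_filter, Finset.mem_Icc] at hp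
    simp only [pairsAbove, Finset.coe_filter, Finset.mem_product, Finset.mem_Icc,
      Set.mem_ofPred_eq]
    exact ⟨⟨hp.2.1, hp.1⟩, hp.2.2.1,
      (divisible_iff (by omega) hp.2.1.1).1 (divisible_of_hasSystem (by omega) hp.2.2.2)⟩
  · rintro ⟨q, n⟩ _ ⟨q', n'⟩ _ he
    simp only [Prod.mk.injEq] at he
    obtain ⟨rfl, rfl⟩ := he
    rfl

theorem idem_le (q : ℕ) (hq : 0 < q) : (idem q : ℝ) ≤ 3 * q.divisors.card := by
  classical
  have h1 : Nat.count (Pm q) q ≤
      1 + ((Finset.Icc 1 q).filter (fun m => q ∣ m * (m - 1))).card := by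
    rw [Nat.count_eq_card_filter_range]
    have : (Finset.range q).filter (Pm q) ⊆
        {0} ∪ (Finset.Icc 1 q).filter (fun m => q ∣ m * (m - 1)) := by
      intro x hx
      rw [Finset.mem_filter, Finset.mem_range] at hx
      rw [Finset.mem_union, Finset.mem_singleton, Finset.mem_filter, Finset.mem_Icc]
      rcases Nat.eq_zero_or_pos x with h | h
      · exact Or.inl h
      · exact Or.inr ⟨⟨h, by omega⟩, hx.2⟩
    refine (Finset.card_le_card this).trans ((Finset.card_union_le _ _).trans ?_)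
    simp
  rw [count_eq_idem q hq] at h1
  have h2 := count_le q q hq
  rw [Nat.div_self hq] at h2
  have h3 : 1 ≤ q.divisors.card := Finset.card_pos.2 ⟨1, Nat.one_mem_divisors.2 hq.ne'⟩
  have h4 : idem q ≤ 3 * q.divisors.card := by omega
  exact_mod_cast h4

theorem dens_summable : Summable dens := by
  refine summable_of_sum_range_le dens_nonneg (c := 3 * ((12 + 4 * Real.log (2 : ℕ)) / (2 : ℕ))) ?_
  intro X
  have h := divisor_tail 2 X (by norm_num)
  refine le_trans ?_ (mul_le_mul_of_nonneg_left h (by norm_num))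
  rw [Finset.mul_sum]
  have hsub : ∑ q ∈ Finset.range X, dens q ≤ ∑ q ∈ Finset.Icc (2 + 1) X, dens q := by
    have e : ∑ q ∈ Finset.range X, dens q = ∑ q ∈ (Finset.range X).filter (fun q => 3 ≤ q), dens q := by
      rw [Finset.sum_filter]
      refine Finset.sum_congr rfl fun q _ => ?_
      split_ifs with h
      · rfl
      · unfold dens; rw [if_neg h]
    rw [e]
    refine Finset.sum_le_sum_of_subset_of_nonneg ?_ (fun q _ _ => dens_nonneg q)
    intro q hq
    rw [Finset.mem_filter, Finset.mem_range] at hq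
    rw [Finset.mem_Icc]
    omega
  refine hsub.trans (Finset.sum_le_sum fun q hq => ?_)
  have hq3 := (Finset.mem_Icc.1 hq).1
  have h3 : (3 : ℝ) ≤ q := by exact_mod_cast hq3
  have hp : (0 : ℝ) < (q : ℝ) * (q - 1) := by nlinarith
  have h4 := idem_le q (by omega)
  rw [idem_eq q (by omega)] at h4
  push_cast at h4
  unfold dens
  rw [if_pos (by omega)]
  calc (2 : ℝ) ^ q.primeFactors.card / ((q : ℝ) * (q - 1))
      ≤ 3 * q.divisors.card / ((q : ℝ) * (q - 1)) := div_le_div_of_nonneg_right h4 hp.le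
    _ = 3 * ((q.divisors.card : ℝ) * (1 / ((q : ℝ) * (q - 1)))) := by ring

/-- The tail function. -/
noncomputable def eta (Q : ℕ) : ℝ := (12 + 4 * Real.log Q) / Q

theorem eta_tendsto : Tendsto eta atTop (𝓝 0) := by
  unfold eta
  have h1 : Tendsto (fun Q : ℕ => (12 : ℝ) / Q) atTop (𝓝 0) := tendsto_const_div_atTop_nhds_zero_nat _
  have h2 : Tendsto (fun Q : ℕ => 4 * (Real.log Q / Q)) atTop (𝓝 (4 * 0)) := by
    refine Tendsto.const_mul _ ?_
    have := Real.tendsto_pow_log_div_mul_add_atTop 1 0 1 one_ne_zero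
    simp only [pow_one, one_mul, add_zero] at this
    exact this.comp tendsto_natCast_atTop_atTop
  have h3 := h1.add h2
  simp only [mul_zero, add_zero] at h3
  refine h3.congr fun Q => ?_
  ring

/-- The remainder. -/
noncomputable def rem (N : ℕ) : ℝ := 10 * Real.sqrt N * (2 + Real.log N) ^ 2 / N

theorem rem_nonneg (N : ℕ) : 0 ≤ rem N := by unfold rem; positivity

theorem rem_tendsto : Tendsto rem atTop (𝓝 0) := by
  have hlog : Tendsto (fun N : ℕ => Real.log N) atTop atTop :=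
    Real.tendsto_log_atTop.comp tendsto_natCast_atTop_atTop
  have h1 : Tendsto (fun N : ℕ => 1440 / (2 + Real.log N)) atTop (𝓝 0) :=
    Tendsto.div_atTop tendsto_const_nhds (tendsto_atTop_add_const_left _ _ hlog)
  refine squeeze_zero' (Eventually.of_forall rem_nonneg) ?_ h1
  filter_upwards [eventually_ge_atTop 1] with N hN
  have hN1 : (1 : ℝ) ≤ N := by exact_mod_cast hN
  have hL : 0 ≤ Real.log N := Real.log_nonneg hN1
  have hc := cube_bound hL
  have hs : Real.exp (Real.log N / 2) = Real.sqrt N := by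
    rw [Real.exp_half, Real.exp_log (by linarith)]
  rw [hs] at hc
  have hS0 : 0 ≤ Real.sqrt N := Real.sqrt_nonneg _
  have hSS : Real.sqrt N * Real.sqrt N = N := Real.mul_self_sqrt (by linarith)
  unfold rem
  rw [div_le_div_iff₀ (by linarith) (by linarith)]
  calc 10 * Real.sqrt N * (2 + Real.log N) ^ 2 * (2 + Real.log N)
      = 10 * Real.sqrt N * (2 + Real.log N) ^ 3 := by ring
    _ ≤ 10 * Real.sqrt N * (144 * Real.sqrt N) := mul_le_mul_of_nonneg_left hc (by positivity)
    _ = 1440 * (Real.sqrt N * Real.sqrt N) := by ring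
    _ = 1440 * N := by rw [hSS]

theorem pairs_ratio (Q N : ℕ) (hQ : 1 ≤ Q) (hN : 1 ≤ N) :
    ((pairsAbove Q N).card : ℝ) / N ≤ eta Q + rem N := by
  have h := count_pairs Q N hQ hN
  have hN0 : (0 : ℝ) < N := by exact_mod_cast hN
  rw [div_le_iff₀ hN0]
  unfold eta rem
  refine h.trans (le_of_eq ?_)
  field_simp

/-- The mean number of block sizes. -/
theorem mean_sizes {μ : ℝ} (hμ : HasSum dens μ) :
    Tendsto (fun N : ℕ => (∑ n ∈ Finset.Icc 1 N, (sizes n : ℝ)) / N) atTop (𝓝 μ) := by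
  rw [Metric.tendsto_atTop]
  intro ε hε
  have t1 := hμ.tendsto_sum_nat
  rw [Metric.tendsto_atTop] at t1
  obtain ⟨Q1, hQ1⟩ := t1 (ε / 4) (by linarith)
  have t2 := eta_tendsto
  rw [Metric.tendsto_atTop] at t2
  obtain ⟨Q2, hQ2⟩ := t2 (ε / 4) (by linarith)
  set Q := max 3 (max Q1 Q2) with hQ
  have hQ3 : 3 ≤ Q := le_max_left _ _
  have a1 := hQ1 (Q + 1) (by omega)
  have a2 := hQ2 Q (by omega)
  have t3 : Tendsto (fun N : ℕ => ∑ q ∈ Finset.Icc 3 Q, (good q N : ℝ) / N) atTop
      (𝓝 (∑ q ∈ Finset.Icc 3 Q, dens q)) :=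
    tendsto_finset_sum _ fun q hq => good_tendsto q (Finset.mem_Icc.1 hq).1
  rw [Metric.tendsto_atTop] at t3
  obtain ⟨N3, hN3⟩ := t3 (ε / 4) (by linarith)
  have t4 := rem_tendsto
  rw [Metric.tendsto_atTop] at t4
  obtain ⟨N4, hN4⟩ := t4 (ε / 4) (by linarith)
  refine ⟨max (Q + 1) (max N3 N4), fun N hN => ?_⟩
  have b1 := hN3 N (by omega)
  have b2 := hN4 N (by omega)
  have hNQ : Q ≤ N := by omega
  have hN0 : (0 : ℝ) < N := by exact_mod_cast (by omega : 0 < N)
  have hsum : ∑ q ∈ Finset.range (Q + 1), dens q = ∑ q ∈ Finset.Icc 3 Q, dens q := by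
    symm
    refine Finset.sum_subset ?_ ?_
    · intro q hq
      rw [Finset.mem_Icc] at hq
      rw [Finset.mem_range]
      omega
    · intro q hq hq'
      rw [Finset.mem_range] at hq
      rw [Finset.mem_Icc] at hq'
      unfold dens
      rw [if_neg (by omega)]
  rw [hsum] at a1
  have hsplit : (∑ n ∈ Finset.Icc 1 N, (sizes n : ℝ)) =
      ∑ q ∈ Finset.Icc 3 Q, (good q N : ℝ) + ((∑ q ∈ Finset.Icc (Q + 1) N, good q N : ℕ) : ℝ) := by
    have h1 : ∑ n ∈ Finset.Icc 1 N, sizes n =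
        ∑ q ∈ Finset.Icc 3 Q, good q N + ∑ q ∈ Finset.Icc (Q + 1) N, good q N := by
      rw [sum_sizes]
      have hu : Finset.Icc 3 N = Finset.Icc 3 Q ∪ Finset.Icc (Q + 1) N := by
        ext x; simp only [Finset.mem_union, Finset.mem_Icc]; omega
      rw [hu, Finset.sum_union]
      rw [Finset.disjoint_left]
      intro x h1 h2
      rw [Finset.mem_Icc] at h1 h2
      omega
    exact_mod_cast h1
  have htail : ((∑ q ∈ Finset.Icc (Q + 1) N, good q N : ℕ) : ℝ) / N ≤ eta Q + rem N := by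
    refine le_trans ?_ (pairs_ratio Q N (by omega) (by omega))
    refine div_le_div_of_nonneg_right ?_ hN0.le
    exact_mod_cast good_tail Q N (by omega)
  have htail0 : 0 ≤ ((∑ q ∈ Finset.Icc (Q + 1) N, good q N : ℕ) : ℝ) / N := by positivity
  rw [Real.dist_eq, abs_lt] at a1 a2 b1 b2 ⊢
  rw [hsplit, add_div, Finset.sum_div]
  constructor <;> linarith [a1.1, a1.2, a2.1, a2.2, b1.1, b1.2, b2.1, b2.2]

end Pool.Agent.Q129.Stn
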