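import Mathlib

/-!
# Sums of the divisor function
-/

set_option autoImplicit false

namespace Pool.Agent.Q129.Stn

open Finset

/-- Unfolding the divisor function as a double sum. -/
theorem divisor_sum_le (S : Finset ℕ) (X : ℕ) (hS : S ⊆ Finset.Icc 1 X) (f : ℕ → ℝ)
    (hf : ∀ q ∈ S, 0 ≤ f q) :
    ∑ q ∈ S, (q.divisors.card : ℝ) * f q ≤
      ∑ a ∈ Finset.Icc 1 X, ∑ b ∈ (Finset.Icc 1 X).filter (fun b => a * b ∈ S), f (a * b) := by
  classical
  have h1 : ∑ a ∈ Finset.Icc 1 X, ∑ b ∈ (Finset.Icc 1 X).filter (fun b => a * b ∈ S), f (a * b) =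
      ∑ p ∈ ((Finset.Icc 1 X) ×ˢ (Finset.Icc 1 X)).filter (fun p => p.1 * p.2 ∈ S),
        f (p.1 * p.2) := by
    rw [Finset.sum_filter, Finset.sum_product]
    refine Finset.sum_congr rfl fun a _ => ?_
    rw [Finset.sum_filter]
  rw [h1]
  have h2 : ∀ p ∈ ((Finset.Icc 1 X) ×ˢ (Finset.Icc 1 X)).filter (fun p => p.1 * p.2 ∈ S),
      p.1 * p.2 ∈ S := fun p hp => (Finset.mem_filter.1 hp).2
  rw [← Finset.sum_fiberwise_of_maps_to h2]
  refine Finset.sum_le_sum fun q hq => ?_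
  have h3 : ∑ p ∈ (((Finset.Icc 1 X) ×ˢ (Finset.Icc 1 X)).filter
      (fun p => p.1 * p.2 ∈ S)).filter (fun p => p.1 * p.2 = q), f (p.1 * p.2) =
      ((((Finset.Icc 1 X) ×ˢ (Finset.Icc 1 X)).filter
      (fun p => p.1 * p.2 ∈ S)).filter (fun p => p.1 * p.2 = q)).card • f q := by
    refine Finset.sum_eq_card_nsmul fun p hp => ?_
    rw [(Finset.mem_filter.1 hp).2]
  rw [h3, nsmul_eq_mul]
  refine mul_le_mul_of_nonneg_right ?_ (hf q hq)
  have hqX := Finset.mem_Icc.1 (hS hq)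
  norm_cast
  refine Finset.card_le_card_of_injOn (fun a => (a, q / a)) ?_ ?_
  · intro a ha
    simp only [Finset.mem_coe, Nat.mem_divisors] at ha
    have ha0 : 0 < a := Nat.pos_of_dvd_of_pos ha.1 (by omega)
    have haq : a ≤ q := Nat.le_of_dvd (by omega) ha.1
    have hm : a * (q / a) = q := Nat.mul_div_cancel' ha.1
    have hb0 : 0 < q / a := Nat.div_pos haq ha0
    have hbq : q / a ≤ q := Nat.div_le_self _ _
    simp only [Finset.coe_filter, Finset.mem_filter, Finset.mem_product, Finset.mem_Icc,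
      Set.mem_ofPred_eq]
    exact ⟨⟨⟨⟨by omega, by omega⟩, ⟨by omega, by omega⟩⟩, by rw [hm]; exact hq⟩, hm⟩
  · intro a _ b _ h
    exact (Prod.mk.inj h).1

theorem harmonic_sum_le (X : ℕ) (hX : 1 ≤ X) :
    ∑ a ∈ Finset.Icc 1 X, (1 : ℝ) / a ≤ 1 + Real.log X := by
  have h := harmonic_le_one_add_log X
  have e : ((harmonic X : ℚ) : ℝ) = ∑ a ∈ Finset.Icc 1 X, (1 : ℝ) / a := by
    rw [harmonic_eq_sum_Icc]
    push_cast
    simp
  rw [e] at h
  exact h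

theorem divisor_over (X : ℕ) (hX : 1 ≤ X) :
    ∑ q ∈ Finset.Icc 1 X, (q.divisors.card : ℝ) * (1 / q) ≤ (1 + Real.log X) ^ 2 := by
  refine (divisor_sum_le _ X le_rfl _ (fun q _ => by positivity)).trans ?_
  have hh := harmonic_sum_le X hX
  have h0 : 0 ≤ ∑ a ∈ Finset.Icc 1 X, (1 : ℝ) / a := Finset.sum_nonneg fun a _ => by positivity
  calc ∑ a ∈ Finset.Icc 1 X, ∑ b ∈ (Finset.Icc 1 X).filter (fun b => a * b ∈ Finset.Icc 1 X),
        (1 : ℝ) / ((a * b : ℕ) : ℝ)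
      ≤ ∑ a ∈ Finset.Icc 1 X, ∑ b ∈ Finset.Icc 1 X, (1 : ℝ) / ((a * b : ℕ) : ℝ) := by
        refine Finset.sum_le_sum fun a _ => ?_
        exact Finset.sum_le_sum_of_subset_of_nonneg (Finset.filter_subset _ _)
          (fun b _ _ => by positivity)
    _ = (∑ a ∈ Finset.Icc 1 X, (1 : ℝ) / a) * ∑ b ∈ Finset.Icc 1 X, (1 : ℝ) / b := by
        rw [Finset.sum_mul_sum]
        refine Finset.sum_congr rfl fun a _ => Finset.sum_congr rfl fun b _ => ?_
        push_cast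
        rw [one_div_mul_one_div]
    _ ≤ (1 + Real.log X) * (1 + Real.log X) := mul_le_mul hh hh h0 (h0.trans hh)
    _ = (1 + Real.log X) ^ 2 := by ring

theorem divisor_total (X : ℕ) (hX : 1 ≤ X) :
    ∑ q ∈ Finset.Icc 1 X, (q.divisors.card : ℝ) ≤ X * (1 + Real.log X) ^ 2 := by
  have h := divisor_over X hX
  have hX0 : (0 : ℝ) ≤ X := by positivity
  refine le_trans ?_ (mul_le_mul_of_nonneg_left h hX0)
  rw [Finset.mul_sum]
  refine Finset.sum_le_sum fun q hq => ?_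
  have hq1 := Finset.mem_Icc.1 hq
  have hq0 : (0 : ℝ) < q := by exact_mod_cast (by omega : 0 < q)
  have hqX : (q : ℝ) ≤ X := by exact_mod_cast hq1.2
  have : (1 : ℝ) ≤ X * (1 / q) := by
    rw [mul_one_div, le_div_iff₀ hq0]
    linarith
  calc (q.divisors.card : ℝ) = q.divisors.card * 1 := by ring
    _ ≤ q.divisors.card * (X * (1 / q)) := mul_le_mul_of_nonneg_left this (by positivity)
    _ = X * (q.divisors.card * (1 / q)) := by ring

/-- The tail of `∑ d(q) / (q (q-1))`. -/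
theorem divisor_tail (Q X : ℕ) (hQ : 1 ≤ Q) :
    ∑ q ∈ Finset.Icc (Q + 1) X, (q.divisors.card : ℝ) * (1 / ((q : ℝ) * (q - 1))) ≤
      (12 + 4 * Real.log Q) / Q := by
  classical
  have hQ0 : (0 : ℝ) < Q := by exact_mod_cast hQ
  have hb : ∀ q ∈ Finset.Icc (Q + 1) X, (1 : ℝ) / ((q : ℝ) * (q - 1)) ≤ 2 * ((q : ℝ) ^ 2)⁻¹ := by
    intro q hq
    have hq1 := Finset.mem_Icc.1 hq
    have hq2 : (2 : ℝ) ≤ q := by exact_mod_cast (by omega : 2 ≤ q)
    have hp : (0 : ℝ) < (q : ℝ) * (q - 1) := by nlinarith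
    rw [div_le_iff₀ hp, mul_assoc, ← div_eq_inv_mul, mul_div_assoc', le_div_iff₀ (by positivity)]
    nlinarith
  have h1 : ∑ q ∈ Finset.Icc (Q + 1) X, (q.divisors.card : ℝ) * (1 / ((q : ℝ) * (q - 1))) ≤
      ∑ q ∈ Finset.Icc (Q + 1) X, (q.divisors.card : ℝ) * (2 * ((q : ℝ) ^ 2)⁻¹) :=
    Finset.sum_le_sum fun q hq => mul_le_mul_of_nonneg_left (hb q hq) (by positivity)
  refine h1.trans ?_
  refine (divisor_sum_le _ X (Finset.Icc_subset_Icc_left (by omega)) _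
    (fun q _ => by positivity)).trans ?_
  have h2 : ∀ a ∈ Finset.Icc 1 X,
      ∑ b ∈ (Finset.Icc 1 X).filter (fun b => a * b ∈ Finset.Icc (Q + 1) X),
        2 * (((a * b : ℕ) : ℝ) ^ 2)⁻¹ ≤ 2 * ((a : ℝ) ^ 2)⁻¹ * (2 / ((Q / a : ℕ) + 1 : ℝ)) := by
    intro a ha
    have ha1 := Finset.mem_Icc.1 ha
    have hs : (Finset.Icc 1 X).filter (fun b => a * b ∈ Finset.Icc (Q + 1) X) ⊆
        Finset.Ioo (Q / a) (X + 1) := by
      intro b hb
      simp only [Finset.mem_filter, Finset.mem_Icc] at hb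
      rw [Finset.mem_Ioo]
      refine ⟨?_, by omega⟩
      rw [Nat.div_lt_iff_lt_mul (by omega)]
      rw [mul_comm]
      omega
    calc ∑ b ∈ (Finset.Icc 1 X).filter (fun b => a * b ∈ Finset.Icc (Q + 1) X),
        2 * (((a * b : ℕ) : ℝ) ^ 2)⁻¹
        ≤ ∑ b ∈ Finset.Ioo (Q / a) (X + 1), 2 * (((a * b : ℕ) : ℝ) ^ 2)⁻¹ :=
          Finset.sum_le_sum_of_subset_of_nonneg hs (fun b _ _ => by positivity)
      _ = 2 * ((a : ℝ) ^ 2)⁻¹ * ∑ b ∈ Finset.Ioo (Q / a) (X + 1), ((b : ℝ) ^ 2)⁻¹ := by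
          rw [Finset.mul_sum]
          refine Finset.sum_congr rfl fun b _ => ?_
          push_cast
          rw [mul_pow, mul_inv]
          ring
      _ ≤ 2 * ((a : ℝ) ^ 2)⁻¹ * (2 / ((Q / a : ℕ) + 1 : ℝ)) :=
          mul_le_mul_of_nonneg_left (sum_Ioo_inv_sq_le _ _) (by positivity)
  refine (Finset.sum_le_sum h2).trans ?_
  have hsplit : Finset.Icc 1 X ⊆ Finset.Icc 1 Q ∪ Finset.Ioo Q (X + 1) := by
    intro a ha
    simp only [Finset.mem_union, Finset.mem_Icc, Finset.mem_Ioo] at ha ⊢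
    omega
  have hnn : ∀ a : ℕ, (0 : ℝ) ≤ 2 * ((a : ℝ) ^ 2)⁻¹ * (2 / ((Q / a : ℕ) + 1 : ℝ)) :=
    fun a => by positivity
  refine (Finset.sum_le_sum_of_subset_of_nonneg hsplit (fun a _ _ => hnn a)).trans ?_
  have hdisj : Disjoint (Finset.Icc 1 Q) (Finset.Ioo Q (X + 1)) := by
    rw [Finset.disjoint_left]
    intro a ha hb
    simp only [Finset.mem_Icc, Finset.mem_Ioo] at ha hb
    omega
  rw [Finset.sum_union hdisj]
  have p1 : ∑ a ∈ Finset.Icc 1 Q, 2 * ((a : ℝ) ^ 2)⁻¹ * (2 / ((Q / a : ℕ) + 1 : ℝ)) ≤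
      4 / Q * (1 + Real.log Q) := by
    refine le_trans ?_ (mul_le_mul_of_nonneg_left (harmonic_sum_le Q hQ) (by positivity))
    rw [Finset.mul_sum]
    refine Finset.sum_le_sum fun a ha => ?_
    have ha1 := Finset.mem_Icc.1 ha
    have ha0 : (0 : ℝ) < a := by exact_mod_cast (by omega : 0 < a)
    have hlt : (Q : ℝ) / a ≤ (Q / a : ℕ) + 1 := by
      have := Nat.lt_div_mul_add (a := Q) (b := a) (by omega)
      rw [div_le_iff₀ ha0]
      have h3 : Q ≤ (Q / a + 1) * a := by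
        rw [add_mul, one_mul]
        omega
      exact_mod_cast h3
    have hpos : (0 : ℝ) < (Q : ℝ) / a := by positivity
    calc 2 * ((a : ℝ) ^ 2)⁻¹ * (2 / ((Q / a : ℕ) + 1 : ℝ))
        ≤ 2 * ((a : ℝ) ^ 2)⁻¹ * (2 / ((Q : ℝ) / a)) := by
          refine mul_le_mul_of_nonneg_left ?_ (by positivity)
          exact div_le_div_of_nonneg_left (by norm_num) hpos hlt
      _ = 4 / Q * (1 / a) := by
          field_simp
          ring
  have p2 : ∑ a ∈ Finset.Ioo Q (X + 1), 2 * ((a : ℝ) ^ 2)⁻¹ * (2 / ((Q / a : ℕ) + 1 : ℝ)) ≤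
      8 / Q := by
    calc ∑ a ∈ Finset.Ioo Q (X + 1), 2 * ((a : ℝ) ^ 2)⁻¹ * (2 / ((Q / a : ℕ) + 1 : ℝ))
        ≤ ∑ a ∈ Finset.Ioo Q (X + 1), 4 * ((a : ℝ) ^ 2)⁻¹ := by
          refine Finset.sum_le_sum fun a _ => ?_
          have : (2 : ℝ) / ((Q / a : ℕ) + 1 : ℝ) ≤ 2 := by
            rw [div_le_iff₀ (by positivity)]
            have : (0 : ℝ) ≤ ((Q / a : ℕ) : ℝ) := by positivity
            linarith
          calc 2 * ((a : ℝ) ^ 2)⁻¹ * (2 / ((Q / a : ℕ) + 1 : ℝ)) ≤ 2 * ((a : ℝ) ^ 2)⁻¹ * 2 :=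
                mul_le_mul_of_nonneg_left this (by positivity)
            _ = 4 * ((a : ℝ) ^ 2)⁻¹ := by ring
      _ = 4 * ∑ a ∈ Finset.Ioo Q (X + 1), ((a : ℝ) ^ 2)⁻¹ := by rw [Finset.mul_sum]
      _ ≤ 4 * (2 / ((Q : ℝ) + 1)) := mul_le_mul_of_nonneg_left (sum_Ioo_inv_sq_le _ _) (by norm_num)
      _ ≤ 4 * (2 / Q) := by
          refine mul_le_mul_of_nonneg_left ?_ (by norm_num)
          exact div_le_div_of_nonneg_left (by norm_num) hQ0 (by linarith)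
      _ = 8 / Q := by ring
  calc _ ≤ 4 / Q * (1 + Real.log Q) + 8 / Q := add_le_add p1 p2
    _ = (12 + 4 * Real.log Q) / Q := by ring

end Pool.Agent.Q129.Stn
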