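import Pool.Agent.Q129.Stn.Arith
import Pool.Agent.Q129.Stn.Sums

/-!
# Counting the pairs `(n, q)` with large `q` that satisfy the divisibility condition
-/

set_option autoImplicit false

namespace Pool.Agent.Q129.Stn

open Finset

/-- Pairs `(n, q)` with `Q < q < n ≤ N` satisfying the divisibility condition. -/
def pairsAbove (Q N : ℕ) : Finset (ℕ × ℕ) :=
  ((Finset.Icc 1 N) ×ˢ (Finset.Icc (Q + 1) N)).filter (fun p => p.2 < p.1 ∧ Dv p.1 p.2)

theorem dv_expand {n q : ℕ} (h : Dv n q) (hn : 1 ≤ n) :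
    n = 1 + (n - 1) / (q - 1) * (q - 1) := by
  have := Nat.div_mul_cancel h.1
  omega

/-- The number of orders `n ≤ N`, `n > q` which are divisible for a given `q`. -/
theorem count_orders (q N : ℕ) (hq : 2 ≤ q) :
    (((Finset.Icc 1 N).filter (fun n => q < n ∧ Dv n q)).card : ℝ) ≤
      q.divisors.card * ((N : ℝ) / ((q : ℝ) * (q - 1)) + 1) := by
  classical
  have h1 : ((Finset.Icc 1 N).filter (fun n => q < n ∧ Dv n q)).card ≤
      ((Finset.Icc 1 ((N - 1) / (q - 1))).filter (fun m => q ∣ m * (m - 1))).card := by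
    refine Finset.card_le_card_of_injOn (fun n => (n - 1) / (q - 1)) ?_ ?_
    · intro n hn
      simp only [Finset.coe_filter, Finset.mem_Icc, Set.mem_ofPred_eq] at hn ⊢
      obtain ⟨⟨h1, h2⟩, h3, h4⟩ := hn
      refine ⟨⟨?_, ?_⟩, h4.2⟩
      · exact Nat.div_pos (by omega) (by omega)
      · exact Nat.div_le_div_right (by omega)
    · intro n hn n' hn' he
      simp only [Finset.coe_filter, Finset.mem_Icc, Set.mem_ofPred_eq] at hn hn'
      simp only at he
      rw [dv_expand hn.2.2 (by omega), dv_expand hn'.2.2 (by omega), he]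
  have h2 := h1.trans (count_le q ((N - 1) / (q - 1)) (by omega))
  have hq1 : (0 : ℝ) < (q : ℝ) - 1 := by
    have : (2 : ℝ) ≤ q := by exact_mod_cast hq
    linarith
  have hq0 : (0 : ℝ) < q := by linarith
  have h3 : (((N - 1) / (q - 1) / q : ℕ) : ℝ) ≤ (N : ℝ) / ((q : ℝ) * (q - 1)) := by
    have e1 : (((N - 1) / (q - 1) / q : ℕ) : ℝ) ≤ (((N - 1) / (q - 1) : ℕ) : ℝ) / q :=
      Nat.cast_div_le
    have e2 : (((N - 1) / (q - 1) : ℕ) : ℝ) ≤ ((N - 1 : ℕ) : ℝ) / ((q - 1 : ℕ) : ℝ) :=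
      Nat.cast_div_le
    have e3 : ((q - 1 : ℕ) : ℝ) = (q : ℝ) - 1 := by
      rw [Nat.cast_sub (by omega)]; simp
    have e4 : ((N - 1 : ℕ) : ℝ) ≤ N := by exact_mod_cast Nat.sub_le N 1
    rw [e3] at e2
    calc (((N - 1) / (q - 1) / q : ℕ) : ℝ) ≤ (((N - 1) / (q - 1) : ℕ) : ℝ) / q := e1
      _ ≤ ((N - 1 : ℕ) : ℝ) / ((q : ℝ) - 1) / q := by
          exact div_le_div_of_nonneg_right e2 hq0.le
      _ ≤ (N : ℝ) / ((q : ℝ) - 1) / q := by
          refine div_le_div_of_nonneg_right ?_ hq0.le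
          exact div_le_div_of_nonneg_right e4 hq1.le
      _ = (N : ℝ) / ((q : ℝ) * (q - 1)) := by
          rw [div_div, mul_comm]
  calc (((Finset.Icc 1 N).filter (fun n => q < n ∧ Dv n q)).card : ℝ)
      ≤ ((q.divisors.card * ((N - 1) / (q - 1) / q + 1) : ℕ) : ℝ) := by exact_mod_cast h2
    _ = q.divisors.card * ((((N - 1) / (q - 1) / q : ℕ) : ℝ) + 1) := by push_cast; ring
    _ ≤ q.divisors.card * ((N : ℝ) / ((q : ℝ) * (q - 1)) + 1) :=
        mul_le_mul_of_nonneg_left (by linarith) (by positivity)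

/-- Pairs with `q ≥ s + 2`, where `s` is the integer square root of `N`. -/
theorem count_large (N : ℕ) (hN : 1 ≤ N) :
    ((pairsAbove (Nat.sqrt N + 1) N).card : ℝ) ≤
      2 * Nat.sqrt N * (1 + Real.log (Nat.sqrt N)) ^ 2 := by
  classical
  set s := Nat.sqrt N with hs
  have hs1 : 1 ≤ s := by
    rw [hs, Nat.le_sqrt]; omega
  have hsN : N < (s + 1) * (s + 1) := Nat.lt_succ_sqrt N
  have h1 : (pairsAbove (s + 1) N).card ≤
      ((Finset.Icc 1 s).sigma (fun q' => (Finset.Icc 1 s).filter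
        (fun m => q' ∣ m * (m - 1)))).card := by
    refine Finset.card_le_card_of_injOn
      (fun p => (⟨((p.1 - 1) / (p.2 - 1)) * ((p.1 - 1) / (p.2 - 1) - 1) / p.2,
        (p.1 - 1) / (p.2 - 1)⟩ : Σ _ : ℕ, ℕ)) ?_ ?_
    · rintro ⟨n, q⟩ hp
      simp only [pairsAbove, Finset.coe_filter, Finset.mem_product, Finset.mem_Icc,
        Set.mem_ofPred_eq] at hp
      obtain ⟨⟨⟨hn1, hnN⟩, hq1, hqN⟩, hqn, hd⟩ := hp
      have hexp := dv_expand hd hn1
      have hdv := hd.2
      simp only [Finset.mem_coe, Finset.mem_sigma, Finset.mem_filter, Finset.mem_Icc]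
      set m := (n - 1) / (q - 1) with hm
      have hm2 : 2 ≤ m := by
        by_contra hcon
        have : m ≤ 1 := by omega
        have h5 : m * (q - 1) ≤ 1 * (q - 1) := Nat.mul_le_mul_right _ this
        omega
      have hms : m ≤ s := by
        by_contra hcon
        have h5 : (s + 1) * (s + 1) ≤ m * (q - 1) := Nat.mul_le_mul (by omega) (by omega)
        omega
      obtain ⟨t, ht⟩ := hdv
      have hq0 : 0 < q := by omega
      have ht' : m * (m - 1) / q = t := by rw [ht, Nat.mul_div_cancel_left _ hq0]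
      have hpos : 0 < m * (m - 1) := Nat.mul_pos (by omega) (by omega)
      have ht1 : 1 ≤ t := by
        rcases Nat.eq_zero_or_pos t with h0 | h0
        · rw [h0, mul_zero] at ht; omega
        · exact h0
      refine ⟨⟨by rw [ht']; exact ht1, ?_⟩, ⟨by omega, hms⟩, ?_⟩
      · rw [ht']
        by_contra hcon
        have h5 : (s + 1) * (s + 1) ≤ q * t := Nat.mul_le_mul (by omega) (by omega)
        have h6 : m * (m - 1) ≤ s * s := Nat.mul_le_mul hms (by omega)
        have h7 : s * s < (s + 1) * (s + 1) := Nat.mul_self_lt_mul_self (by omega)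
        omega
      · rw [ht', ht]
        exact dvd_mul_left _ _
    · rintro ⟨n, q⟩ hp ⟨n', q'⟩ hp' he
      simp only [pairsAbove, Finset.coe_filter, Finset.mem_product, Finset.mem_Icc,
        Set.mem_ofPred_eq] at hp hp'
      obtain ⟨⟨⟨hn1, hnN⟩, hq1, hqN⟩, hqn, hd⟩ := hp
      obtain ⟨⟨⟨hn1', hnN'⟩, hq1', hqN'⟩, hqn', hd'⟩ := hp'
      simp only [Sigma.mk.injEq, heq_eq_eq] at he
      obtain ⟨he1, he2⟩ := he
      have hexp := dv_expand hd hn1
      have hexp' := dv_expand hd' hn1'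
      have hdv := hd.2
      have hdv' := hd'.2
      rw [← he2] at he1 hexp' hdv'
      set m := (n - 1) / (q - 1) with hm
      have hm2 : 2 ≤ m := by
        by_contra hcon
        have : m ≤ 1 := by omega
        have h5 : m * (q - 1) ≤ 1 * (q - 1) := Nat.mul_le_mul_right _ this
        omega
      have hpos : 0 < m * (m - 1) := Nat.mul_pos (by omega) (by omega)
      have hqq : q = q' := by
        obtain ⟨t, ht⟩ := hdv
        obtain ⟨t', ht'⟩ := hdv'
        have e1 : m * (m - 1) / q = t := by rw [ht, Nat.mul_div_cancel_left _ (by omega)]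
        have e2 : m * (m - 1) / q' = t' := by rw [ht', Nat.mul_div_cancel_left _ (by omega)]
        rw [e1, e2] at he1
        subst he1
        have ht0 : 0 < t := by
          rcases Nat.eq_zero_or_pos t with h0 | h0
          · rw [h0, mul_zero] at ht; omega
          · exact h0
        exact Nat.eq_of_mul_eq_mul_right ht0 (ht.symm.trans ht')
      subst hqq
      have : n = n' := by rw [hexp, hexp']
      rw [this]
  have h2 : (((Finset.Icc 1 s).sigma (fun q' => (Finset.Icc 1 s).filter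
        (fun m => q' ∣ m * (m - 1)))).card : ℝ) ≤
      ∑ q' ∈ Finset.Icc 1 s, (2 * s : ℝ) * ((q'.divisors.card : ℝ) * (1 / q')) := by
    rw [Finset.card_sigma]
    push_cast
    refine Finset.sum_le_sum fun q' hq' => ?_
    have hq1 := Finset.mem_Icc.1 hq'
    have h3 := count_le q' s (by omega)
    have hq0 : (0 : ℝ) < q' := by exact_mod_cast (by omega : 0 < q')
    have e1 : (((s / q' : ℕ) : ℝ)) ≤ (s : ℝ) / q' := Nat.cast_div_le
    have e2 : (1 : ℝ) ≤ (s : ℝ) / q' := by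
      rw [le_div_iff₀ hq0]
      have : (q' : ℝ) ≤ s := by exact_mod_cast hq1.2
      linarith
    calc (((Finset.Icc 1 s).filter (fun m => q' ∣ m * (m - 1))).card : ℝ)
        ≤ ((q'.divisors.card * (s / q' + 1) : ℕ) : ℝ) := by exact_mod_cast h3
      _ = q'.divisors.card * (((s / q' : ℕ) : ℝ) + 1) := by push_cast; ring
      _ ≤ q'.divisors.card * ((s : ℝ) / q' + (s : ℝ) / q') :=
          mul_le_mul_of_nonneg_left (by linarith) (by positivity)
      _ = (2 * s : ℝ) * ((q'.divisors.card : ℝ) * (1 / q')) := by ring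
  have h3 := divisor_over s hs1
  calc ((pairsAbove (s + 1) N).card : ℝ) ≤ _ := by exact_mod_cast h1
    _ ≤ _ := h2
    _ = (2 * s : ℝ) * ∑ q' ∈ Finset.Icc 1 s, ((q'.divisors.card : ℝ) * (1 / q')) := by
        rw [Finset.mul_sum]
    _ ≤ 2 * s * (1 + Real.log s) ^ 2 := mul_le_mul_of_nonneg_left h3 (by positivity)

theorem count_middle (Q N : ℕ) (hQ : 1 ≤ Q) :
    (((((Finset.Icc 1 N) ×ˢ (Finset.Icc (Q + 1) (Nat.sqrt N + 1))).filter
      (fun p : ℕ × ℕ => p.2 < p.1 ∧ Dv p.1 p.2)).card : ℕ) : ℝ) ≤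
      N * ((12 + 4 * Real.log Q) / Q) +
        (Nat.sqrt N + 1 : ℕ) * (1 + Real.log (Nat.sqrt N + 1 : ℕ)) ^ 2 := by
  classical
  set X := Nat.sqrt N + 1 with hX
  have h1 : ((((Finset.Icc 1 N) ×ˢ (Finset.Icc (Q + 1) X)).filter
      (fun p : ℕ × ℕ => p.2 < p.1 ∧ Dv p.1 p.2)).card : ℕ) ≤
      ∑ q ∈ Finset.Icc (Q + 1) X, ((Finset.Icc 1 N).filter (fun n => q < n ∧ Dv n q)).card := by
    rw [← Finset.card_sigma]
    refine Finset.card_le_card_of_injOn (fun p => (⟨p.2, p.1⟩ : Σ _ : ℕ, ℕ)) ?_ ?_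
    · rintro ⟨n, q⟩ hp
      simp only [Finset.coe_filter, Finset.mem_product, Finset.mem_Icc, Set.mem_ofPred_eq] at hp
      simp only [Finset.mem_coe, Finset.mem_sigma, Finset.mem_filter, Finset.mem_Icc]
      exact ⟨hp.1.2, hp.1.1, hp.2⟩
    · rintro ⟨n, q⟩ _ ⟨n', q'⟩ _ he
      simp only [Sigma.mk.injEq, heq_eq_eq] at he
      rw [he.1, he.2]
  have h2 : ((∑ q ∈ Finset.Icc (Q + 1) X,
      ((Finset.Icc 1 N).filter (fun n => q < n ∧ Dv n q)).card : ℕ) : ℝ) ≤
      ∑ q ∈ Finset.Icc (Q + 1) X, ((N : ℝ) * ((q.divisors.card : ℝ) * (1 / ((q : ℝ) * (q - 1)))) +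
        q.divisors.card) := by
    push_cast
    refine Finset.sum_le_sum fun q hq => ?_
    have hq1 := Finset.mem_Icc.1 hq
    refine (count_orders q N (by omega)).trans (le_of_eq ?_)
    ring
  rw [Finset.sum_add_distrib, ← Finset.mul_sum] at h2
  have h3 := divisor_tail Q X hQ
  have h4 : ∑ q ∈ Finset.Icc (Q + 1) X, (q.divisors.card : ℝ) ≤
      ∑ q ∈ Finset.Icc 1 X, (q.divisors.card : ℝ) :=
    Finset.sum_le_sum_of_subset_of_nonneg (Finset.Icc_subset_Icc_left (by omega))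
      (fun _ _ _ => by positivity)
  have h5 := divisor_total X (by omega)
  have hN0 : (0 : ℝ) ≤ N := by positivity
  have h6 := mul_le_mul_of_nonneg_left h3 hN0
  have h7 : (((((Finset.Icc 1 N) ×ˢ (Finset.Icc (Q + 1) X)).filter
      (fun p : ℕ × ℕ => p.2 < p.1 ∧ Dv p.1 p.2)).card : ℕ) : ℝ) ≤
      ((∑ q ∈ Finset.Icc (Q + 1) X,
      ((Finset.Icc 1 N).filter (fun n => q < n ∧ Dv n q)).card : ℕ) : ℝ) := by exact_mod_cast h1
  linarith

/-- The main counting bound. -/
theorem count_pairs (Q N : ℕ) (hQ : 1 ≤ Q) (hN : 1 ≤ N) :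
    ((pairsAbove Q N).card : ℝ) ≤
      N * ((12 + 4 * Real.log Q) / Q) + 10 * Real.sqrt N * (2 + Real.log N) ^ 2 := by
  classical
  have hsub : pairsAbove Q N ⊆ (((Finset.Icc 1 N) ×ˢ (Finset.Icc (Q + 1) (Nat.sqrt N + 1))).filter
      (fun p : ℕ × ℕ => p.2 < p.1 ∧ Dv p.1 p.2)) ∪ pairsAbove (Nat.sqrt N + 1) N := by
    rintro ⟨n, q⟩ hp
    simp only [pairsAbove, Finset.mem_union, Finset.mem_filter, Finset.mem_product,
      Finset.mem_Icc] at hp ⊢
    obtain ⟨⟨h1, h2⟩, h3⟩ := hp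
    rcases le_or_gt q (Nat.sqrt N + 1) with h4 | h4
    · exact Or.inl ⟨⟨h1, by omega⟩, h3⟩
    · exact Or.inr ⟨⟨h1, by omega⟩, h3⟩
  have h1 : ((pairsAbove Q N).card : ℝ) ≤
      (((((Finset.Icc 1 N) ×ˢ (Finset.Icc (Q + 1) (Nat.sqrt N + 1))).filter
      (fun p : ℕ × ℕ => p.2 < p.1 ∧ Dv p.1 p.2)).card : ℕ) : ℝ) +
      ((pairsAbove (Nat.sqrt N + 1) N).card : ℝ) := by
    exact_mod_cast (Finset.card_le_card hsub).trans (Finset.card_union_le _ _)
  have h2 := count_middle Q N hQ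
  have h3 := count_large N hN
  set s := Nat.sqrt N with hs
  have hs1 : 1 ≤ s := by rw [hs, Nat.le_sqrt]; omega
  have hsR : (s : ℝ) ≤ Real.sqrt N := by
    rw [hs]; exact Real.nat_sqrt_le_real_sqrt
  have hs1R : (1 : ℝ) ≤ s := by exact_mod_cast hs1
  have hsq1 : (1 : ℝ) ≤ Real.sqrt N := hs1R.trans hsR
  have hN1 : (1 : ℝ) ≤ N := by exact_mod_cast hN
  have hsN : Real.sqrt N ≤ N := by
    have := Real.sq_sqrt (by positivity : (0 : ℝ) ≤ N)
    nlinarith
  have hlog0 : 0 ≤ Real.log N := Real.log_nonneg hN1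
  have l1 : Real.log s ≤ Real.log N := Real.log_le_log (by linarith) (hsR.trans hsN)
  have l2 : Real.log (s + 1 : ℕ) ≤ 1 + Real.log N := by
    have e1 : ((s + 1 : ℕ) : ℝ) ≤ Real.exp 1 * N := by
      have : (2 : ℝ) ≤ Real.exp 1 := by
        have := Real.add_one_le_exp (1 : ℝ)
        linarith
      push_cast
      nlinarith
    calc Real.log (s + 1 : ℕ) ≤ Real.log (Real.exp 1 * N) := Real.log_le_log (by positivity) e1
      _ = 1 + Real.log N := by
        rw [Real.log_mul (Real.exp_pos 1).ne' (by positivity), Real.log_exp]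
  have l0 : 0 ≤ Real.log s := Real.log_nonneg hs1R
  have l3 : 0 ≤ Real.log (s + 1 : ℕ) := Real.log_nonneg (by push_cast; linarith)
  have q1 : (1 + Real.log s) ^ 2 ≤ (2 + Real.log N) ^ 2 := by
    apply pow_le_pow_left₀ (by linarith) (by linarith)
  have q2 : (1 + Real.log (s + 1 : ℕ)) ^ 2 ≤ (2 + Real.log N) ^ 2 := by
    apply pow_le_pow_left₀ (by linarith) (by linarith)
  have q3 : ((s + 1 : ℕ) : ℝ) ≤ 2 * Real.sqrt N := by push_cast; linarith
  have q4 : ((s + 1 : ℕ) : ℝ) * (1 + Real.log (s + 1 : ℕ)) ^ 2 ≤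
      2 * Real.sqrt N * (2 + Real.log N) ^ 2 :=
    mul_le_mul q3 q2 (by positivity) (by positivity)
  have q5 : 2 * (s : ℝ) * (1 + Real.log s) ^ 2 ≤ 2 * Real.sqrt N * (2 + Real.log N) ^ 2 :=
    mul_le_mul (by linarith) q1 (by positivity) (by positivity)
  have q6 : 0 ≤ Real.sqrt N * (2 + Real.log N) ^ 2 := by positivity
  linarith

end Pool.Agent.Q129.Stn
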