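import Pool.Agent.H108R2.Bound3
import Pool.Agent.Q129.Stn.Pairs

/-!
# Steiner systems `S(n,q,2)`: the exceptional orders have density zero
-/

set_option autoImplicit false

namespace Pool.Agent.Q129.Stn

open Finset

/-- A Steiner system `S(n,q,2)` exists. -/
def HasSystem (n q : ℕ) : Prop :=
  ∃ B : Finset (Finset (Fin n)), (∀ b ∈ B, b.card = q) ∧
    ∀ T : Finset (Fin n), T.card = 2 → ∃! b, b ∈ B ∧ T ⊆ b

/-- The order `n` is exceptional: for some block size `q` the divisibility condition holds but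
there is no Steiner system `S(n,q,2)`. -/
def Exceptional (n : ℕ) : Prop := ∃ q, 2 ≤ q ∧ q ≤ n ∧ Divisible n q ∧ ¬ HasSystem n q

theorem hasSystem_two (n : ℕ) : HasSystem n 2 := by
  classical
  refine ⟨powersetCard 2 univ, fun b hb => (mem_powersetCard.1 hb).2, ?_⟩
  intro T hT
  refine ⟨T, ⟨mem_powersetCard.2 ⟨subset_univ _, hT⟩, subset_rfl⟩, ?_⟩
  rintro b ⟨hb, hTb⟩
  exact (Finset.eq_of_subset_of_card_le hTb (by rw [(mem_powersetCard.1 hb).2, hT])).symm

theorem hasSystem_self (n : ℕ) : HasSystem n n := by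
  classical
  refine ⟨{univ}, fun b hb => ?_, ?_⟩
  · rw [mem_singleton.1 hb]; simp
  · intro T _
    refine ⟨univ, ⟨mem_singleton_self _, subset_univ _⟩, ?_⟩
    rintro b ⟨hb, _⟩
    exact mem_singleton.1 hb

theorem divisible_of_hasSystem {n q : ℕ} (hn : 0 < n) (h : HasSystem n q) : Divisible n q := by
  obtain ⟨B, h1, h2⟩ := h
  intro i hi
  interval_cases i
  · exact H108.necessary_zero h1 h2
  · simpa using H108.necessary_one hn h1 h2

theorem hasSystem_iff_of_large {n q : ℕ} (hq : 2 ≤ q) (hn : q ^ (10 ^ 7 * q) ≤ n) :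
    HasSystem n q ↔ Divisible n q := by
  have hn0 : 0 < n := lt_of_lt_of_le (Nat.pow_pos (by omega)) hn
  exact H108.steiner_iff hq hn0 fun h3 hA => H108.main3 h3 hA hn

/-- Fisher's inequality. -/
theorem fisher {n q : ℕ} (hq : 2 ≤ q) (hqn : q < n) (h : HasSystem n q) :
    q * (q - 1) ≤ n - 1 := by
  classical
  obtain ⟨B, h1, h2⟩ := h
  have hn2 : 2 ≤ n := by omega
  -- a block
  obtain ⟨b0, hb0⟩ : ∃ b0, b0 ∈ B := by
    obtain ⟨b, hb, _⟩ := h2 {⟨0, by omega⟩, ⟨1, by omega⟩} (by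
      rw [card_pair]; intro he; simpa using congrArg Fin.val he)
    exact ⟨b, hb.1⟩
  obtain ⟨x, hx⟩ : ∃ x, x ∉ b0 := by
    by_contra hcon
    push Not at hcon
    have : b0 = univ := eq_univ_iff_forall.2 hcon
    have h3 := h1 b0 hb0
    rw [this, card_univ, Fintype.card_fin] at h3
    omega
  have hex : ∀ y ∈ b0, ∃ b, b ∈ B ∧ x ∈ b ∧ y ∈ b := by
    intro y hy
    have hne : x ≠ y := fun he => hx (he ▸ hy)
    obtain ⟨b, hb, _⟩ := h2 {x, y} (card_pair hne)
    exact ⟨b, hb.1, hb.2 (by simp), hb.2 (by simp)⟩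
  choose! f hfB hfx hfy using hex
  have huniq : ∀ b b' : Finset (Fin n), b ∈ B → b' ∈ B → ∀ u v, u ≠ v → u ∈ b → v ∈ b → u ∈ b' →
      v ∈ b' → b = b' := by
    intro b b' hb hb' u v huv h3 h4 h5 h6
    obtain ⟨c, _, hc⟩ := h2 {u, v} (card_pair huv)
    have e1 := hc b ⟨hb, by intro z hz; simp only [mem_insert, mem_singleton] at hz; rcases hz with rfl | rfl <;> assumption⟩
    have e2 := hc b' ⟨hb', by intro z hz; simp only [mem_insert, mem_singleton] at hz; rcases hz with rfl | rfl <;> assumption⟩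
    rw [e1, e2]
  have hdisj : ∀ y ∈ b0, ∀ y' ∈ b0, y ≠ y' → Disjoint ((f y).erase x) ((f y').erase x) := by
    intro y hy y' hy' hne
    rw [Finset.disjoint_left]
    intro z hz hz'
    rw [mem_erase] at hz hz'
    have he := huniq _ _ (hfB y hy) (hfB y' hy') x z (Ne.symm hz.1) (hfx y hy) hz.2 (hfx y' hy') hz'.2
    have he2 := huniq _ _ (hfB y hy) hb0 y y' hne (hfy y hy) (by rw [he]; exact hfy y' hy') hy hy'
    exact hx (he2 ▸ hfx y hy)
  have hcard : ∀ y ∈ b0, ((f y).erase x).card = q - 1 := by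
    intro y hy
    rw [card_erase_of_mem (hfx y hy), h1 _ (hfB y hy)]
  have h3 : (b0.biUnion fun y => (f y).erase x).card = q * (q - 1) := by
    rw [card_biUnion hdisj, sum_congr rfl hcard, sum_const, smul_eq_mul, h1 b0 hb0]
  have h4 : (b0.biUnion fun y => (f y).erase x) ⊆ univ.erase x := by
    intro z hz
    rw [mem_biUnion] at hz
    obtain ⟨y, _, hz⟩ := hz
    rw [mem_erase] at hz ⊢
    exact ⟨hz.1, mem_univ _⟩
  have h5 := card_le_card h4
  rw [h3, card_erase_of_mem (mem_univ _), card_univ, Fintype.card_fin] at h5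
  exact h5

/-- An infinite family of exceptional orders. -/
theorem exceptional_family (j : ℕ) : Exceptional ((4 * j + 7) * (2 * j + 3)) := by
  have e1 : (4 * j + 7) * (2 * j + 3) - 1 = (4 * j + 5) * (2 * j + 4) := by
    have : (4 * j + 7) * (2 * j + 3) = (4 * j + 5) * (2 * j + 4) + 1 := by ring
    omega
  have hlt : 4 * j + 6 < (4 * j + 7) * (2 * j + 3) := by nlinarith
  refine ⟨4 * j + 6, by omega, hlt.le, ?_, ?_⟩
  · rw [divisible_iff (by omega) (by omega)]
    unfold Dv
    have e2 : 4 * j + 6 - 1 = 4 * j + 5 := by omega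
    rw [e1, e2]
    refine ⟨dvd_mul_right _ _, ?_⟩
    rw [Nat.mul_div_cancel_left _ (by omega)]
    have e3 : 2 * j + 4 - 1 = 2 * j + 3 := by omega
    rw [e3]
    exact ⟨j + 2, by ring⟩
  · intro h
    have h2 := fisher (by omega) hlt h
    rw [e1] at h2
    have e2 : 4 * j + 6 - 1 = 4 * j + 5 := by omega
    rw [e2] at h2
    nlinarith

theorem lower_bound (N : ℕ) (hN : 21 ≤ N) (E : Finset ℕ)
    (hE : ∀ n, n ∈ E ↔ (1 ≤ n ∧ n ≤ N) ∧ Exceptional n) :
    Real.sqrt N / 8 ≤ E.card := by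
  classical
  set s := Nat.sqrt N with hs
  have hsN : s * s ≤ N := Nat.sqrt_le N
  have hsN' : N < (s + 1) * (s + 1) := Nat.lt_succ_sqrt N
  have hsub : (Finset.range (s / 8 + 1)).image (fun j => (4 * j + 7) * (2 * j + 3)) ⊆ E := by
    intro n hn
    rw [mem_image] at hn
    obtain ⟨j, hj, rfl⟩ := hn
    rw [mem_range] at hj
    rw [hE]
    refine ⟨⟨by nlinarith, ?_⟩, exceptional_family j⟩
    rcases Nat.eq_zero_or_pos j with h0 | h0
    · subst h0; omega
    · have h8 : 8 * j ≤ s := by omega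
      nlinarith
  have hinj : Function.Injective (fun j : ℕ => (4 * j + 7) * (2 * j + 3)) := by
    intro a b hab
    simp only at hab
    rcases lt_trichotomy a b with h | h | h
    · nlinarith
    · exact h
    · nlinarith
  have h1 := card_le_card hsub
  rw [card_image_of_injective _ hinj, card_range] at h1
  have h2 : Real.sqrt N ≤ s + 1 := by
    rw [Real.sqrt_le_left (by positivity)]
    have : (N : ℝ) < ((s + 1) * (s + 1) : ℕ) := by exact_mod_cast hsN'
    push_cast at this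
    nlinarith
  have h3 : ((s : ℝ) + 1) / 8 ≤ (s / 8 : ℕ) + 1 := by
    have h4 : s + 1 ≤ 8 * (s / 8 + 1) := by omega
    have h5 : ((s + 1 : ℕ) : ℝ) ≤ ((8 * (s / 8 + 1) : ℕ) : ℝ) := by exact_mod_cast h4
    push_cast at h5
    linarith
  have h6 : ((s / 8 + 1 : ℕ) : ℝ) ≤ E.card := by exact_mod_cast h1
  push_cast at h6
  linarith

theorem card_le_of_threshold (Q N : ℕ)
    (hth : ∀ q, 3 ≤ q → q ≤ Q → q ^ (10 ^ 7 * q) ≤ Nat.sqrt N + 1) (E : Finset ℕ)
    (hE : ∀ n, n ∈ E ↔ (1 ≤ n ∧ n ≤ N) ∧ Exceptional n) :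
    E.card ≤ Nat.sqrt N + (pairsAbove Q N).card := by
  classical
  have hsub : E ⊆ Finset.Icc 1 (Nat.sqrt N) ∪ (pairsAbove Q N).image Prod.fst := by
    intro n hn
    rw [hE] at hn
    obtain ⟨⟨h1, h2⟩, q, hq2, hqn, hd, hns⟩ := hn
    rw [mem_union, mem_Icc, mem_image]
    rcases le_or_gt n (Nat.sqrt N) with h3 | h3
    · exact Or.inl ⟨h1, h3⟩
    · right
      have hq3 : 3 ≤ q := by
        rcases Nat.lt_or_ge q 3 with h4 | h4
        · exact absurd (by rw [show q = 2 by omega]; exact hasSystem_two n) hns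
        · exact h4
      have hqn' : q < n := by
        rcases Nat.lt_or_ge q n with h4 | h4
        · exact h4
        · exact absurd (by rw [show q = n by omega]; exact hasSystem_self n) hns
      have hqQ : Q < q := by
        by_contra hcon
        have h5 := hth q hq3 (by omega)
        exact hns ((hasSystem_iff_of_large hq2 (by omega)).2 hd)
      refine ⟨(n, q), ?_, rfl⟩
      simp only [pairsAbove, mem_filter, mem_product, mem_Icc]
      exact ⟨⟨⟨h1, h2⟩, by omega, by omega⟩, hqn', (divisible_iff hq2 h1).1 hd⟩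
  refine (card_le_card hsub).trans ((card_union_le _ _).trans ?_)
  rw [Nat.card_Icc]
  exact Nat.add_le_add (by omega) card_image_le

theorem cube_bound {L : ℝ} (hL : 0 ≤ L) : (2 + L) ^ 3 ≤ 144 * Real.exp (L / 2) := by
  have h1 : ((2 + L) / 2) ^ 3 / 6 ≤ Real.exp ((2 + L) / 2) := by
    have := Real.pow_div_factorial_le_exp ((2 + L) / 2) (by linarith) 3
    simpa [Nat.factorial] using this
  have h2 : Real.exp ((2 + L) / 2) = Real.exp 1 * Real.exp (L / 2) := by
    rw [← Real.exp_add]; ring_nf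
  rw [h2] at h1
  have h3 : Real.exp 1 < 3 := Real.exp_one_lt_three
  have h4 : 0 < Real.exp (L / 2) := Real.exp_pos _
  nlinarith

theorem log21 : (3 : ℝ) ≤ Real.log 21 := by
  rw [Real.le_log_iff_exp_le (by norm_num)]
  have h := Real.exp_one_lt_d9
  have h0 := Real.exp_pos (1 : ℝ)
  have e : Real.exp 3 = Real.exp 1 ^ 3 := by rw [← Real.exp_nat_mul]; norm_num
  rw [e]
  calc Real.exp 1 ^ 3 ≤ (2.7182818286 : ℝ) ^ 3 := by gcongr
    _ ≤ 21 := by norm_num

theorem upper_bound (N : ℕ) (hN : 21 ≤ N) (E : Finset ℕ)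
    (hE : ∀ n, n ∈ E ↔ (1 ≤ n ∧ n ≤ N) ∧ Exceptional n) :
    (E.card : ℝ) ≤ 10 ^ 9 * (N * (Real.log (Real.log N)) ^ 2 / Real.log N) := by
  classical
  have hNR : (21 : ℝ) ≤ N := by exact_mod_cast hN
  set L := Real.log N with hL
  have hL3 : 3 ≤ L := log21.trans (Real.log_le_log (by norm_num) hNR)
  set l := Real.log L with hl
  have hl1 : 1 ≤ l := by
    rw [hl, Real.le_log_iff_exp_le (by linarith)]
    linarith [Real.exp_one_lt_three]
  have hL0 : 0 < L := by linarith
  have hl0 : 0 < l := by linarith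
  have hEN : E.card ≤ N := by
    have : E ⊆ Finset.Icc 1 N := fun n hn => by
      rw [hE] at hn; exact Finset.mem_Icc.2 hn.1
    have := card_le_card this
    rwa [Nat.card_Icc, Nat.add_sub_cancel] at this
  have hENR : (E.card : ℝ) ≤ N := by exact_mod_cast hEN
  have hN0 : (0 : ℝ) < N := by linarith
  set K : ℝ := 2 * 10 ^ 7 with hK
  have hK0 : 0 < K := by norm_num [hK]
  have hl2 : l ≤ l ^ 2 := by nlinarith
  rcases lt_or_ge (L / (K * l)) 1 with hy | hy
  · rw [div_lt_one (by positivity)] at hy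
    have h1 : 1 ≤ K * l ^ 2 / L := by
      rw [le_div_iff₀ hL0]
      nlinarith
    have h2 : (N : ℝ) ≤ N * (K * l ^ 2 / L) := by nlinarith
    calc (E.card : ℝ) ≤ N := hENR
      _ ≤ N * (K * l ^ 2 / L) := h2
      _ = K * (N * l ^ 2 / L) := by ring
      _ ≤ 10 ^ 9 * (N * l ^ 2 / L) := by
          refine mul_le_mul_of_nonneg_right ?_ (by positivity)
          norm_num [hK]
  · set y := L / (K * l) with hydef
    set Q := ⌊y⌋₊ with hQ
    have hQ1 : 1 ≤ Q := by
      rw [hQ]; exact (Nat.one_le_floor_iff y).2 hy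
    have hQy : (Q : ℝ) ≤ y := Nat.floor_le (by linarith)
    have hyQ : y < Q + 1 := Nat.lt_floor_add_one y
    have hQ1R : (1 : ℝ) ≤ Q := by exact_mod_cast hQ1
    have hyL : y ≤ L := by
      rw [hydef, div_le_iff₀ (by positivity)]
      have : 1 ≤ K * l := by nlinarith [show (1 : ℝ) ≤ K by norm_num [hK]]
      nlinarith
    have hlogQ : Real.log Q ≤ l := Real.log_le_log (by linarith) (hQy.trans hyL)
    have hyKl : y * l * 10 ^ 7 = L / 2 := by
      rw [hydef, hK]
      field_simp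
    have hsqrt : Real.exp (L / 2) = Real.sqrt N := by
      rw [Real.exp_half, hL, Real.exp_log hN0]
    have hth : ∀ q, 3 ≤ q → q ≤ Q → q ^ (10 ^ 7 * q) ≤ Nat.sqrt N + 1 := by
      intro q hq3 hqQ
      have hq0 : (0 : ℝ) < q := by exact_mod_cast (by omega : 0 < q)
      have hq1 : (1 : ℝ) ≤ q := by exact_mod_cast (by omega : 1 ≤ q)
      have hqy : (q : ℝ) ≤ y := le_trans (by exact_mod_cast hqQ) hQy
      have hlq : Real.log q ≤ l := Real.log_le_log hq0 (hqy.trans hyL)
      have hlq0 : 0 ≤ Real.log q := Real.log_nonneg hq1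
      have h1 : ((q ^ (10 ^ 7 * q) : ℕ) : ℝ) ≤ Real.sqrt N := by
        rw [← hsqrt, ← Real.log_le_iff_le_exp (by positivity)]
        push_cast
        rw [Real.log_pow]
        push_cast
        have h2 : (q : ℝ) * Real.log q ≤ y * l := mul_le_mul hqy hlq hlq0 (by linarith)
        nlinarith
      have h2 : Real.sqrt N ≤ (Nat.sqrt N + 1 : ℕ) := by
        rw [Real.sqrt_le_left (by positivity)]
        have h3 : (N : ℝ) < ((Nat.sqrt N + 1) * (Nat.sqrt N + 1) : ℕ) := by
          exact_mod_cast Nat.lt_succ_sqrt N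
        push_cast at h3 ⊢
        nlinarith
      exact_mod_cast h1.trans h2
    have h1 := card_le_of_threshold Q N hth E hE
    have h1R : (E.card : ℝ) ≤ Nat.sqrt N + (pairsAbove Q N).card := by exact_mod_cast h1
    have h2 := count_pairs Q N hQ1 (by omega)
    have h3 : (Nat.sqrt N : ℝ) ≤ Real.sqrt N := Real.nat_sqrt_le_real_sqrt
    have hcube := cube_bound (L := L) (by linarith)
    rw [hsqrt] at hcube
    have hS0 : 0 ≤ Real.sqrt N := Real.sqrt_nonneg _
    have hSS : Real.sqrt N * Real.sqrt N = N := Real.mul_self_sqrt hN0.le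
    have h4 : Real.sqrt N * (2 + L) ^ 2 ≤ 144 * (N / L) := by
      rw [mul_div_assoc', le_div_iff₀ hL0]
      have : Real.sqrt N * (2 + L) ^ 2 * L ≤ Real.sqrt N * (2 + L) ^ 3 := by
        have h5 : (2 + L) ^ 2 * L ≤ (2 + L) ^ 3 := by
          have : 0 ≤ (2 + L) ^ 2 := by positivity
          nlinarith
        calc Real.sqrt N * (2 + L) ^ 2 * L = Real.sqrt N * ((2 + L) ^ 2 * L) := by ring
          _ ≤ _ := mul_le_mul_of_nonneg_left h5 hS0
      calc _ ≤ Real.sqrt N * (2 + L) ^ 3 := this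
        _ ≤ Real.sqrt N * (144 * Real.sqrt N) := mul_le_mul_of_nonneg_left hcube hS0
        _ = 144 * (Real.sqrt N * Real.sqrt N) := by ring
        _ = 144 * N := by rw [hSS]
    have h5 : Real.sqrt N ≤ 144 * (N / L) := by
      refine le_trans ?_ h4
      have : (1 : ℝ) ≤ (2 + L) ^ 2 := by nlinarith
      nlinarith
    have h6 : N / L ≤ N * l ^ 2 / L := by
      refine div_le_div_of_nonneg_right ?_ hL0.le
      have : (1 : ℝ) ≤ l ^ 2 := by nlinarith
      nlinarith
    have h7 : (12 + 4 * Real.log Q) / Q ≤ 32 * K * (l ^ 2 / L) := by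
      have h8 : 12 + 4 * Real.log Q ≤ 16 * l := by linarith
      have h9 : y / 2 ≤ Q := by linarith
      calc (12 + 4 * Real.log Q) / Q ≤ 16 * l / Q := div_le_div_of_nonneg_right h8 (by linarith)
        _ ≤ 16 * l / (y / 2) := div_le_div_of_nonneg_left (by positivity) (by linarith) h9
        _ = 32 * K * (l ^ 2 / L) := by
            rw [hydef]
            field_simp
            ring
    have h8 : (N : ℝ) * ((12 + 4 * Real.log Q) / Q) ≤ 32 * K * (N * l ^ 2 / L) := by
      calc (N : ℝ) * ((12 + 4 * Real.log Q) / Q) ≤ N * (32 * K * (l ^ 2 / L)) :=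
            mul_le_mul_of_nonneg_left h7 hN0.le
        _ = 32 * K * (N * l ^ 2 / L) := by ring
    have h9 : 0 ≤ N * l ^ 2 / L := by positivity
    have h10 : 32 * K + 2000 ≤ 10 ^ 9 := by norm_num [hK]
    calc (E.card : ℝ) ≤ 144 * (N / L) + (32 * K * (N * l ^ 2 / L) + 10 * (144 * (N / L))) := by
          nlinarith
      _ ≤ (32 * K + 2000) * (N * l ^ 2 / L) := by nlinarith
      _ ≤ 10 ^ 9 * (N * l ^ 2 / L) := mul_le_mul_of_nonneg_right h10 h9

end Pool.Agent.Q129.Stn
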