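import Mathlib

/-!
# The number of solutions of `m (m - 1) ≡ 0` modulo `q` is `2 ^ ω(q)`
-/

set_option autoImplicit false

namespace Pool.Agent.Q129.Stn

open Finset

/-- The condition `q ∣ m (m - 1)`. -/
def Pm (q m : ℕ) : Prop := q ∣ m * (m - 1)

instance (q : ℕ) : DecidablePred (Pm q) := fun m => by unfold Pm; infer_instance

theorem pm_iff (q m : ℕ) : Pm q m ↔ (m : ZMod q) * m = m := by
  unfold Pm
  rcases Nat.eq_zero_or_pos m with h | h
  · subst h; simp
  · rw [← ZMod.natCast_eq_zero_iff]
    push_cast [Nat.cast_sub h]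
    constructor
    · intro h1
      linear_combination h1
    · intro h1
      linear_combination h1

theorem pm_periodic (q : ℕ) : Function.Periodic (Pm q) q := by
  intro m
  rw [eq_iff_iff, pm_iff, pm_iff]
  push_cast
  simp

/-- Number of idempotents modulo `q`. -/
noncomputable def idem (q : ℕ) : ℕ := Nat.card {e : ZMod q // e * e = e}

theorem count_eq_idem (q : ℕ) (hq : 0 < q) : Nat.count (Pm q) q = idem q := by
  classical
  have : NeZero q := ⟨hq.ne'⟩
  rw [Nat.count_eq_card_filter_range, idem]
  have e : ((Finset.range q).filter (Pm q)) ≃ {e : ZMod q // e * e = e} :=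
    { toFun := fun x => ⟨((x : ℕ) : ZMod q), by
        have := (Finset.mem_filter.1 x.2).2
        exact (pm_iff q x).1 this⟩
      invFun := fun e => ⟨(e : ZMod q).val, by
        rw [Finset.mem_filter, Finset.mem_range]
        refine ⟨ZMod.val_lt _, ?_⟩
        rw [pm_iff, ZMod.natCast_val, ZMod.cast_id']
        exact e.2⟩
      left_inv := by
        rintro ⟨x, hx⟩
        have := (Finset.mem_filter.1 hx).1
        rw [Finset.mem_range] at this
        simp [ZMod.val_natCast, Nat.mod_eq_of_lt this]
      right_inv := by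
        rintro ⟨e, he⟩
        simp }
  rw [← Nat.card_congr e, Nat.card_eq_fintype_card, Fintype.card_coe]

theorem idem_mul {m n : ℕ} (h : m.Coprime n) : idem (m * n) = idem m * idem n := by
  unfold idem
  rw [← Nat.card_prod]
  refine Nat.card_congr ?_
  refine (Equiv.subtypeEquiv (ZMod.chineseRemainder h).toEquiv
    (q := fun p : ZMod m × ZMod n => p.1 * p.1 = p.1 ∧ p.2 * p.2 = p.2) ?_).trans
    (Equiv.subtypeProdEquivProd (p := fun e : ZMod m => e * e = e)
      (q := fun e : ZMod n => e * e = e))
  intro a
  have h1 : a * a = a ↔ (ZMod.chineseRemainder h) a * (ZMod.chineseRemainder h) a =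
      (ZMod.chineseRemainder h) a := by
    rw [← map_mul]
    exact ((ZMod.chineseRemainder h).injective.eq_iff).symm
  rw [h1, Prod.ext_iff]
  rfl

theorem idem_one : idem 1 = 1 := by
  unfold idem
  have : Nat.card {e : ZMod 1 // e * e = e} = 1 := by
    rw [Nat.card_eq_one_iff_unique]
    refine ⟨⟨fun a b => Subtype.ext (Subsingleton.elim _ _)⟩, ⟨⟨0, by simp⟩⟩⟩
  exact this

theorem idem_prime_pow {p k : ℕ} (hp : p.Prime) (hk : 0 < k) : idem (p ^ k) = 2 := by
  classical
  have hq0 : 0 < p ^ k := Nat.pow_pos hp.pos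
  have hq1 : 1 < p ^ k := Nat.one_lt_pow hk.ne' hp.one_lt
  rw [← count_eq_idem _ hq0, Nat.count_eq_card_filter_range]
  have : (Finset.range (p ^ k)).filter (Pm (p ^ k)) = {0, 1} := by
    ext x
    rw [Finset.mem_filter, Finset.mem_range, Finset.mem_insert, Finset.mem_singleton]
    constructor
    · rintro ⟨hx, hd⟩
      unfold Pm at hd
      by_contra hcon
      push Not at hcon
      have hx2 : 2 ≤ x := by omega
      have hc : Nat.Coprime x (x - 1) := by
        have : Nat.Coprime (x - 1 + 1) (x - 1) := by simp
        rwa [Nat.sub_add_cancel (by omega)] at this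
      have h3 : p ^ k ∣ x ∨ p ^ k ∣ x - 1 := by
        by_cases hpx : p ∣ x
        · left
          have : Nat.Coprime p (x - 1) := Nat.Coprime.coprime_dvd_left hpx hc
          exact (Nat.Coprime.dvd_mul_right (Nat.Coprime.pow_left k this)).1 hd
        · right
          have : Nat.Coprime p x := (Nat.Prime.coprime_iff_not_dvd hp).2 hpx
          exact (Nat.Coprime.dvd_mul_left (Nat.Coprime.pow_left k this)).1 hd
      rcases h3 with h3 | h3
      · have := Nat.le_of_dvd (by omega) h3
        omega
      · have := Nat.le_of_dvd (by omega) h3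
        omega
    · rintro (rfl | rfl)
      · exact ⟨hq0, by unfold Pm; simp⟩
      · exact ⟨hq1, by unfold Pm; simp⟩
  rw [this]
  rfl

theorem idem_eq (q : ℕ) (hq : 0 < q) : idem q = 2 ^ q.primeFactors.card := by
  revert hq
  refine Nat.recOnPosPrimePosCoprime (motive := fun q => 0 < q → idem q = 2 ^ q.primeFactors.card)
    ?_ ?_ ?_ ?_ q
  · intro p n hp hn _
    rw [idem_prime_pow hp hn, Nat.primeFactors_prime_pow hn.ne' hp]
    simp
  · intro h; omega
  · intro _
    rw [idem_one]; simp
  · intro a b ha hb hab iha ihb _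
    rw [idem_mul hab, iha (by omega), ihb (by omega), Nat.Coprime.primeFactors_mul hab,
      Finset.card_union_of_disjoint (Nat.Coprime.disjoint_primeFactors hab), pow_add]

end Pool.Agent.Q129.Stn
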