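import Pool.Agent.Q129.Stn.Main
import Pool.Agent.Q129.Stn.Rho

/-!
# The mean number of block sizes of Steiner systems `S(n,q,2)`
-/

set_option autoImplicit false

namespace Pool.Agent.Q129.Stn

open Finset Filter Topology

/-- Density of the orders divisible for block size `q`. -/
noncomputable def dens (q : ℕ) : ℝ :=
  if 3 ≤ q then (2 : ℝ) ^ q.primeFactors.card / ((q : ℝ) * (q - 1)) else 0

theorem dens_nonneg (q : ℕ) : 0 ≤ dens q := by
  unfold dens
  split_ifs with h
  · have : (3 : ℝ) ≤ q := by exact_mod_cast h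
    have h2 : (0 : ℝ) < (q : ℝ) * (q - 1) := by nlinarith
    positivity
  · exact le_rfl

theorem count_mul (q k : ℕ) (hq : 0 < q) : Nat.count (Pm q) (q * k) = k * idem q := by
  induction k with
  | zero => simp
  | succ k ih =>
    rw [Nat.mul_succ, Nat.count_add, ih, Nat.count_eq_card_filter_range, Nat.succ_mul]
    congr 1
    have h1 : ((Finset.range q).filter (fun m => Pm q (q * k + m))) =
        (Finset.range q).filter (Pm q) := by
      refine Finset.filter_congr fun m _ => ?_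
      have := (pm_periodic q).nat_mul k m
      rw [eq_iff_iff] at this
      rw [add_comm, mul_comm]
      simpa using this
    rw [h1, ← Nat.count_eq_card_filter_range, count_eq_idem q hq]

theorem count_bounds (q N : ℕ) (hq : 3 ≤ q) (hN : 1 ≤ N) :
    |((Nat.count (Pm q) ((N - 1) / (q - 1) + 1) : ℕ) : ℝ) - dens q * N| ≤ 2 * idem q := by
  have hd : dens q = (idem q : ℝ) / ((q : ℝ) * (q - 1)) := by
    unfold dens
    rw [if_pos hq, idem_eq q (by omega)]
    push_cast
    rfl
  have hq3 : (3 : ℝ) ≤ q := by exact_mod_cast hq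
  have hq1 : (0 : ℝ) < (q : ℝ) - 1 := by linarith
  have hq0 : (0 : ℝ) < q := by linarith
  set M := (N - 1) / (q - 1) with hM
  set k := (M + 1) / q with hk
  have hr0 : (0 : ℝ) ≤ idem q := by positivity
  have h1 : Nat.count (Pm q) (q * k) ≤ Nat.count (Pm q) (M + 1) :=
    Nat.count_monotone _ (Nat.mul_div_le _ _)
  have h2 : Nat.count (Pm q) (M + 1) ≤ Nat.count (Pm q) (q * (k + 1)) :=
    Nat.count_monotone _ (Nat.lt_mul_div_succ _ (by omega)).le
  rw [count_mul q _ (by omega)] at h1 h2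
  have h1R : (k : ℝ) * idem q ≤ (Nat.count (Pm q) (M + 1) : ℕ) := by exact_mod_cast h1
  have h2R : ((Nat.count (Pm q) (M + 1) : ℕ) : ℝ) ≤ ((k : ℝ) + 1) * idem q := by exact_mod_cast h2
  have hqm : ((q - 1 : ℕ) : ℝ) = (q : ℝ) - 1 := by rw [Nat.cast_sub (by omega)]; simp
  have hNm : ((N - 1 : ℕ) : ℝ) = (N : ℝ) - 1 := by rw [Nat.cast_sub (by omega)]; simp
  have m1 : (M : ℝ) ≤ ((N : ℝ) - 1) / (q - 1) := by
    have : (M : ℝ) ≤ ((N - 1 : ℕ) : ℝ) / ((q - 1 : ℕ) : ℝ) := Nat.cast_div_le
    rwa [hqm, hNm] at this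
  have m2 : ((N : ℝ) - 1) / (q - 1) ≤ (M : ℝ) + 1 := by
    rw [div_le_iff₀ hq1]
    have : N - 1 < (q - 1) * (M + 1) := Nat.lt_mul_div_succ _ (by omega)
    have h3 : ((N - 1 : ℕ) : ℝ) ≤ ((q - 1 : ℕ) : ℝ) * ((M : ℝ) + 1) := by exact_mod_cast this.le
    rw [hqm, hNm] at h3
    linarith
  have k1 : (k : ℝ) ≤ ((M : ℝ) + 1) / q := by
    have : (k : ℝ) ≤ ((M + 1 : ℕ) : ℝ) / (q : ℝ) := Nat.cast_div_le
    push_cast at this
    exact this
  have k2 : ((M : ℝ) + 1) / q ≤ (k : ℝ) + 1 := by
    rw [div_le_iff₀ hq0]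
    have : M + 1 < q * (k + 1) := Nat.lt_mul_div_succ _ (by omega)
    have h3 : ((M + 1 : ℕ) : ℝ) ≤ (q : ℝ) * ((k : ℝ) + 1) := by exact_mod_cast this.le
    push_cast at h3
    linarith
  have e0 : (N : ℝ) / ((q : ℝ) * (q - 1)) = (N : ℝ) / (q - 1) / q := by
    rw [div_div, mul_comm (q : ℝ)]
  have hNq : dens q * N = idem q * ((N : ℝ) / (q - 1) / q) := by
    rw [hd, ← e0]; ring
  have hN1 : (1 : ℝ) ≤ N := by exact_mod_cast hN
  have u1 : ((M : ℝ) + 1) / q ≤ (N : ℝ) / (q - 1) / q + 1 := by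
    have : (M : ℝ) + 1 ≤ (N : ℝ) / (q - 1) + 1 := by
      have : ((N : ℝ) - 1) / (q - 1) ≤ (N : ℝ) / (q - 1) :=
        div_le_div_of_nonneg_right (by linarith) hq1.le
      linarith
    calc ((M : ℝ) + 1) / q ≤ ((N : ℝ) / (q - 1) + 1) / q := div_le_div_of_nonneg_right this hq0.le
      _ = (N : ℝ) / (q - 1) / q + 1 / q := by rw [add_div]
      _ ≤ (N : ℝ) / (q - 1) / q + 1 := by
          have : 1 / (q : ℝ) ≤ 1 := by rw [div_le_one hq0]; linarith
          linarith
  have u2 : (N : ℝ) / (q - 1) / q - 1 ≤ ((M : ℝ) + 1) / q := by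
    have h3 : (N : ℝ) / (q - 1) ≤ (M : ℝ) + 1 + 1 / (q - 1) := by
      have : (N : ℝ) / (q - 1) = ((N : ℝ) - 1) / (q - 1) + 1 / (q - 1) := by
        rw [← add_div]; ring_nf
      linarith
    have h4 : 1 / ((q : ℝ) - 1) ≤ 1 := by rw [div_le_one hq1]; linarith
    calc (N : ℝ) / (q - 1) / q - 1 ≤ ((M : ℝ) + 1 + 1) / q - 1 := by
          have := div_le_div_of_nonneg_right (show (N : ℝ) / (q - 1) ≤ (M : ℝ) + 1 + 1 by linarith)
            hq0.le
          linarith
      _ = ((M : ℝ) + 1) / q + 1 / q - 1 := by rw [add_div]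
      _ ≤ ((M : ℝ) + 1) / q := by
          have : 1 / (q : ℝ) ≤ 1 := by rw [div_le_one hq0]; linarith
          linarith
  rw [hNq, abs_le]
  constructor
  · have : (N : ℝ) / (q - 1) / q - 2 ≤ k := by linarith
    nlinarith
  · have : (k : ℝ) ≤ (N : ℝ) / (q - 1) / q + 1 := by linarith
    nlinarith

open Classical in
/-- Number of orders `n ≤ N`, `n > q`, with a Steiner system `S(n,q,2)`. -/
noncomputable def good (q N : ℕ) : ℕ :=
  ((Finset.Icc 1 N).filter (fun n => q < n ∧ HasSystem n q)).card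

theorem good_bounds (q N : ℕ) (hq : 3 ≤ q) (hN : 1 ≤ N) :
    |(good q N : ℝ) - dens q * N| ≤ 2 * idem q + q ^ (10 ^ 7 * q) + 2 + q := by
  classical
  set T := q ^ (10 ^ 7 * q) with hT
  set M := (N - 1) / (q - 1) with hM
  have hb := count_bounds q N hq hN
  -- upper
  have h1 : good q N ≤ Nat.count (Pm q) (M + 1) := by
    rw [Nat.count_eq_card_filter_range]
    refine Finset.card_le_card_of_injOn (fun n => (n - 1) / (q - 1)) ?_ ?_
    · intro n hn
      simp only [Finset.coe_filter, Finset.mem_Icc, Set.mem_ofPred_eq, Finset.mem_range] at hn ⊢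
      have hd := (divisible_iff (by omega) hn.1.1).1 (divisible_of_hasSystem (by omega) hn.2.2)
      exact ⟨Nat.lt_succ_of_le (Nat.div_le_div_right (by omega)), hd.2⟩
    · intro n hn n' hn' he
      simp only [Finset.coe_filter, Finset.mem_Icc, Set.mem_ofPred_eq] at hn hn'
      simp only at he
      have hd := (divisible_iff (by omega) hn.1.1).1 (divisible_of_hasSystem (by omega) hn.2.2)
      have hd' := (divisible_iff (by omega) hn'.1.1).1 (divisible_of_hasSystem (by omega) hn'.2.2)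
      rw [dv_expand hd (by omega), dv_expand hd' (by omega), he]
  -- lower
  have h2 : Nat.count (Pm q) (M + 1) ≤ good q N + (T + 1 + q) := by
    rw [Nat.count_eq_card_filter_range]
    have hsub : ((Finset.range (M + 1)).filter (Pm q)).image (fun m => 1 + m * (q - 1)) ⊆
        ((Finset.Icc 1 N).filter (fun n => q < n ∧ HasSystem n q)) ∪ Finset.range (T + 1 + q) := by
      intro n hn
      rw [Finset.mem_image] at hn
      obtain ⟨m, hm, rfl⟩ := hn
      rw [Finset.mem_filter, Finset.mem_range] at hm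
      rw [Finset.mem_union, Finset.mem_filter, Finset.mem_Icc, Finset.mem_range]
      by_cases hlt : 1 + m * (q - 1) < T + 1 + q
      · exact Or.inr hlt
      · left
        have hle : m * (q - 1) ≤ N - 1 := by
          calc m * (q - 1) ≤ M * (q - 1) := Nat.mul_le_mul_right _ (by omega)
            _ ≤ N - 1 := Nat.div_mul_le_self _ _
        have hdv : Dv (1 + m * (q - 1)) q := by
          unfold Dv
          have e : 1 + m * (q - 1) - 1 = m * (q - 1) := by omega
          rw [e, Nat.mul_div_cancel _ (by omega)]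
          exact ⟨dvd_mul_left _ _, hm.2⟩
        refine ⟨⟨by omega, by omega⟩, by omega, ?_⟩
        rw [hasSystem_iff_of_large (by omega) (by omega)]
        exact (divisible_iff (by omega) (by omega)).2 hdv
    have hinj : Function.Injective (fun m => 1 + m * (q - 1)) := by
      intro a b hab
      simp only at hab
      exact Nat.eq_of_mul_eq_mul_right (by omega : 0 < q - 1) (by omega)
    have h3 := (Finset.card_le_card hsub).trans (Finset.card_union_le _ _)
    rw [Finset.card_image_of_injective _ hinj, Finset.card_range] at h3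
    exact h3
  have h1R : (good q N : ℝ) ≤ (Nat.count (Pm q) (M + 1) : ℕ) := by exact_mod_cast h1
  have h2R : ((Nat.count (Pm q) (M + 1) : ℕ) : ℝ) ≤ good q N + (T + 1 + q) := by exact_mod_cast h2
  rw [abs_le] at hb ⊢
  have hTR : ((T : ℕ) : ℝ) = (q : ℝ) ^ (10 ^ 7 * q) := by rw [hT]; push_cast; rfl
  rw [hTR] at h2R
  have hq0 : (0 : ℝ) ≤ q := by positivity
  have hT0 : (0 : ℝ) ≤ (q : ℝ) ^ (10 ^ 7 * q) := by positivity
  constructor
  · linarith [hb.1]
  · linarith [hb.2]

theorem good_tendsto (q : ℕ) (hq : 3 ≤ q) :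
    Tendsto (fun N : ℕ => (good q N : ℝ) / N) atTop (𝓝 (dens q)) := by
  have hlim : Tendsto (fun N : ℕ => (2 * (idem q : ℝ) + q ^ (10 ^ 7 * q) + 2 + q) / (N : ℝ)) atTop
      (𝓝 0) := tendsto_const_div_atTop_nhds_zero_nat _
  rw [tendsto_iff_norm_sub_tendsto_zero]
  refine squeeze_zero' (Eventually.of_forall fun N => norm_nonneg _) ?_ hlim
  filter_upwards [eventually_ge_atTop 1] with N hN
  have hN0 : (0 : ℝ) < N := by exact_mod_cast hN
  have h := good_bounds q N hq hN
  have e : (good q N : ℝ) / N - dens q = ((good q N : ℝ) - dens q * N) / N := by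
    field_simp
  rw [e, Real.norm_eq_abs, abs_div, abs_of_pos hN0]
  exact div_le_div_of_nonneg_right h hN0.le

end Pool.Agent.Q129.Stn
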