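import Pool.Agent.Q129.Stn.Dist

/-!
# A positive proportion of orders has no nontrivial Steiner system
-/

set_option autoImplicit false

namespace Pool.Agent.Q129.Stn

open Finset Filter Topology

theorem zmod_case : ∀ q m c : ZMod 12, m * (q - 1) = 1 → q * c = m * (m - 1) →
    q = 2 ∧ m = 1 := by decide

theorem class_facts {n q : ℕ} (hn : n % 12 = 2) (hq : 3 ≤ q) (hqn : q < n) (h : Dv n q) :
    q % 12 = 2 ∧ ((n - 1) / (q - 1)) % 12 = 1 := by
  obtain ⟨h1, c, hc⟩ := h
  have h2 := Nat.div_mul_cancel h1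
  set m := (n - 1) / (q - 1) with hm
  have hm1 : 1 ≤ m := Nat.div_pos (by omega) (by omega)
  have e1 : ((m : ZMod 12)) * ((q : ZMod 12) - 1) = 1 := by
    have : ((m * (q - 1) : ℕ) : ZMod 12) = ((n - 1 : ℕ) : ZMod 12) := by rw [h2]
    push_cast [Nat.cast_sub (show 1 ≤ q by omega)] at this
    rw [this]
    have h3 : n - 1 = 12 * (n / 12) + 1 := by omega
    rw [h3]
    push_cast
    have h12 : (12 : ZMod 12) = 0 := by decide
    rw [h12]; ring
  have e2 : (q : ZMod 12) * (c : ZMod 12) = (m : ZMod 12) * ((m : ZMod 12) - 1) := by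
    have : ((m * (m - 1) : ℕ) : ZMod 12) = ((q * c : ℕ) : ZMod 12) := by rw [hc]
    push_cast [Nat.cast_sub hm1] at this
    rw [this]
  obtain ⟨f1, f2⟩ := zmod_case _ _ _ e1 e2
  constructor
  · have : ((q : ℕ) : ZMod 12) = ((2 : ℕ) : ZMod 12) := by rw [f1]; rfl
    rw [ZMod.natCast_eq_natCast_iff] at this
    exact this
  · have : ((m : ℕ) : ZMod 12) = ((1 : ℕ) : ZMod 12) := by rw [f2]; rfl
    rw [ZMod.natCast_eq_natCast_iff] at this
    exact this

/-- Solutions `m ≤ M` of `q ∣ m (m-1)` with `m ≡ 1 (mod 3)`. -/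
theorem count_le_three (q M : ℕ) (hq : 0 < q) (hq3 : Nat.Coprime q 3) :
    ((Finset.Icc 1 M).filter (fun m => q ∣ m * (m - 1) ∧ m % 3 = 1)).card ≤
      q.divisors.card * (M / (q * 3) + 1) := by
  classical
  have h1 : ((Finset.Icc 1 M).filter (fun m => q ∣ m * (m - 1) ∧ m % 3 = 1)).card =
      ∑ a ∈ q.divisors, (((Finset.Icc 1 M).filter (fun m => q ∣ m * (m - 1) ∧ m % 3 = 1)).filter
        (fun m => Nat.gcd m q = a)).card := by
    refine Finset.card_eq_sum_card_fiberwise ?_
    intro m _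
    simp only [Finset.mem_coe, Nat.mem_divisors]
    exact ⟨Nat.gcd_dvd_right _ _, by omega⟩
  rw [h1, ← smul_eq_mul]
  refine Finset.sum_le_card_nsmul _ _ _ ?_
  intro a _
  set T := ((Finset.Icc 1 M).filter (fun m => q ∣ m * (m - 1) ∧ m % 3 = 1)).filter
        (fun m => Nat.gcd m q = a) with hT
  rcases T.eq_empty_or_nonempty with he | ⟨m0, hm0⟩
  · rw [he]; simp
  · have hle : T.card ≤ ((Finset.range M).filter (fun x => x ≡ m0 - 1 [MOD (q * 3)])).card := by
      refine Finset.card_le_card_of_injOn (fun m => m - 1) ?_ ?_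
      · intro m hm
        rw [hT] at hm0
        rw [hT] at hm
        simp only [Finset.coe_filter, Finset.mem_filter, Finset.mem_Icc, Set.mem_ofPred_eq] at hm hm0
        simp only [Finset.coe_filter, Finset.mem_range, Set.mem_ofPred_eq]
        refine ⟨by omega, ?_⟩
        have hc := congr_of_gcd hq (by omega) (by omega) hm.1.2.1 hm0.1.2.1 (by rw [hm.2, hm0.2])
        have hc3 : m ≡ m0 [MOD 3] := by
          show m % 3 = m0 % 3
          rw [hm.1.2.2, hm0.1.2.2]
        have hc' : m ≡ m0 [MOD (q * 3)] := (Nat.modEq_and_modEq_iff_modEq_mul hq3).1 ⟨hc, hc3⟩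
        refine Nat.ModEq.add_right_cancel' 1 ?_
        rwa [Nat.sub_add_cancel hm.1.1.1, Nat.sub_add_cancel hm0.1.1.1]
      · intro m hm m' hm' he
        rw [hT] at hm hm'
        simp only [Finset.coe_filter, Finset.mem_filter, Finset.mem_Icc, Set.mem_ofPred_eq] at hm hm'
        simp only at he
        omega
    refine hle.trans ?_
    rw [← Nat.count_eq_card_filter_range, Nat.count_modEq_card _ (by omega)]
    split_ifs <;> omega

theorem class_count (q N : ℕ) (hq : 3 ≤ q) (hq12 : q % 12 = 2) :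
    (((Finset.Icc 1 N).filter (fun n => n % 12 = 2 ∧ q < n ∧ Dv n q)).card : ℝ) ≤
      q.divisors.card * ((N : ℝ) / (3 * ((q : ℝ) * (q - 1))) + 1) := by
  classical
  have h1 : ((Finset.Icc 1 N).filter (fun n => n % 12 = 2 ∧ q < n ∧ Dv n q)).card ≤
      ((Finset.Icc 1 ((N - 1) / (q - 1))).filter
        (fun m => q ∣ m * (m - 1) ∧ m % 3 = 1)).card := by
    refine Finset.card_le_card_of_injOn (fun n => (n - 1) / (q - 1)) ?_ ?_
    · intro n hn
      simp only [Finset.coe_filter, Finset.mem_Icc, Set.mem_ofPred_eq] at hn ⊢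
      obtain ⟨⟨h1, h2⟩, h0, h3, h4⟩ := hn
      have hf := class_facts h0 hq h3 h4
      refine ⟨⟨?_, ?_⟩, h4.2, by omega⟩
      · exact Nat.div_pos (by omega) (by omega)
      · exact Nat.div_le_div_right (by omega)
    · intro n hn n' hn' he
      simp only [Finset.coe_filter, Finset.mem_Icc, Set.mem_ofPred_eq] at hn hn'
      simp only at he
      rw [dv_expand hn.2.2.2 (by omega), dv_expand hn'.2.2.2 (by omega), he]
  have hcop : Nat.Coprime q 3 := by
    have : Nat.Coprime 3 q := (Nat.Prime.coprime_iff_not_dvd (by norm_num)).2 (by omega)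
    exact this.symm
  have h2 := h1.trans (count_le_three q ((N - 1) / (q - 1)) (by omega) hcop)
  have hq1 : (0 : ℝ) < (q : ℝ) - 1 := by
    have : (3 : ℝ) ≤ q := by exact_mod_cast hq
    linarith
  have hq0 : (0 : ℝ) < q := by linarith
  have h3 : (((N - 1) / (q - 1) / (q * 3) : ℕ) : ℝ) ≤ (N : ℝ) / (3 * ((q : ℝ) * (q - 1))) := by
    have e1 : (((N - 1) / (q - 1) / (q * 3) : ℕ) : ℝ) ≤
        (((N - 1) / (q - 1) : ℕ) : ℝ) / ((q * 3 : ℕ) : ℝ) := Nat.cast_div_le
    have e2 : (((N - 1) / (q - 1) : ℕ) : ℝ) ≤ ((N - 1 : ℕ) : ℝ) / ((q - 1 : ℕ) : ℝ) :=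
      Nat.cast_div_le
    have e3 : ((q - 1 : ℕ) : ℝ) = (q : ℝ) - 1 := by
      rw [Nat.cast_sub (by omega)]; simp
    have e4 : ((N - 1 : ℕ) : ℝ) ≤ N := by exact_mod_cast Nat.sub_le N 1
    rw [e3] at e2
    push_cast at e1
    calc (((N - 1) / (q - 1) / (q * 3) : ℕ) : ℝ) ≤
          (((N - 1) / (q - 1) : ℕ) : ℝ) / ((q : ℝ) * 3) := e1
      _ ≤ ((N - 1 : ℕ) : ℝ) / ((q : ℝ) - 1) / ((q : ℝ) * 3) :=
          div_le_div_of_nonneg_right e2 (by positivity)
      _ ≤ (N : ℝ) / ((q : ℝ) - 1) / ((q : ℝ) * 3) := by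
          refine div_le_div_of_nonneg_right ?_ (by positivity)
          exact div_le_div_of_nonneg_right e4 hq1.le
      _ = (N : ℝ) / (3 * ((q : ℝ) * (q - 1))) := by
          rw [div_div]; congr 1; ring
  calc (((Finset.Icc 1 N).filter (fun n => n % 12 = 2 ∧ q < n ∧ Dv n q)).card : ℝ)
      ≤ ((q.divisors.card * ((N - 1) / (q - 1) / (q * 3) + 1) : ℕ) : ℝ) := by exact_mod_cast h2
    _ = q.divisors.card * ((((N - 1) / (q - 1) / (q * 3) : ℕ) : ℝ) + 1) := by push_cast; ring
    _ ≤ _ := mul_le_mul_of_nonneg_left (by linarith) (by positivity)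

/-- The list of relevant small block sizes. -/
def small : Finset ℕ := (Finset.range 1001).filter (fun q => 3 ≤ q ∧ q % 12 = 2)

theorem small_sum_nat :
    ∑ q ∈ small, (1000000 * q.divisors.card / (q * (q - 1)) + 1) ≤ 50000 := by
  decide +kernel

theorem mem_small {q : ℕ} : q ∈ small ↔ q < 1001 ∧ 3 ≤ q ∧ q % 12 = 2 := by
  unfold small
  rw [Finset.mem_filter, Finset.mem_range]

attribute [local irreducible] small

theorem small_sum : ∑ q ∈ small, (q.divisors.card : ℝ) / ((q : ℝ) * (q - 1)) ≤ 1 / 20 := by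
  have h : ∑ q ∈ small, (q.divisors.card : ℝ) / ((q : ℝ) * (q - 1)) ≤
      ∑ q ∈ small, (((1000000 * q.divisors.card / (q * (q - 1)) + 1 : ℕ) : ℝ) / 1000000) := by
    refine Finset.sum_le_sum fun q hq => ?_
    have hq3 : 3 ≤ q := (mem_small.1 hq).2.1
    have h3 : (3 : ℝ) ≤ q := by exact_mod_cast hq3
    have hp : (0 : ℝ) < (q : ℝ) * (q - 1) := by nlinarith
    have hlt : 1000000 * q.divisors.card <
        (q * (q - 1)) * (1000000 * q.divisors.card / (q * (q - 1)) + 1) :=
      Nat.lt_mul_div_succ _ (Nat.mul_pos (by omega) (by omega))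
    have hR : (1000000 : ℝ) * q.divisors.card ≤
        ((q : ℝ) * (q - 1)) * ((1000000 * q.divisors.card / (q * (q - 1)) + 1 : ℕ) : ℝ) := by
      have h5 : ((1000000 * q.divisors.card : ℕ) : ℝ) ≤
          (((q * (q - 1)) * (1000000 * q.divisors.card / (q * (q - 1)) + 1) : ℕ) : ℝ) := by
        exact_mod_cast hlt.le
      have e3 : ((q - 1 : ℕ) : ℝ) = (q : ℝ) - 1 := by
        rw [Nat.cast_sub (by omega)]; simp
      have e4 : (((q * (q - 1)) * (1000000 * q.divisors.card / (q * (q - 1)) + 1) : ℕ) : ℝ) =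
          ((q : ℝ) * (q - 1)) * ((1000000 * q.divisors.card / (q * (q - 1)) + 1 : ℕ) : ℝ) := by
        rw [Nat.cast_mul, Nat.cast_mul q, e3]
      have e5 : ((1000000 * q.divisors.card : ℕ) : ℝ) = (1000000 : ℝ) * q.divisors.card := by
        rw [Nat.cast_mul]; norm_num
      rw [e4, e5] at h5
      exact h5
    rw [div_le_div_iff₀ hp (by norm_num)]
    linarith
  refine h.trans ?_
  have e : ∑ q ∈ small, (((1000000 * q.divisors.card / (q * (q - 1)) + 1 : ℕ) : ℝ) / 1000000) =
      ((∑ q ∈ small, (1000000 * q.divisors.card / (q * (q - 1)) + 1) : ℕ) : ℝ) / 1000000 := by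
    rw [Nat.cast_sum, Finset.sum_div]
  rw [e]
  have h2 : ((∑ q ∈ small, (1000000 * q.divisors.card / (q * (q - 1)) + 1) : ℕ) : ℝ) ≤
      ((50000 : ℕ) : ℝ) := Nat.cast_le.2 small_sum_nat
  calc ((∑ q ∈ small, (1000000 * q.divisors.card / (q * (q - 1)) + 1) : ℕ) : ℝ) / 1000000 ≤
      ((50000 : ℕ) : ℝ) / 1000000 := div_le_div_of_nonneg_right h2 (by norm_num)
    _ = 1 / 20 := by norm_num

theorem eta_bound : eta 1000 ≤ 1 / 25 := by
  unfold eta
  have h : Real.log (1000 : ℕ) ≤ 7 := by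
    rw [Real.log_le_iff_le_exp (by norm_num)]
    have h1 := Real.exp_one_gt_d9
    have e : Real.exp 7 = Real.exp 1 ^ 7 := by rw [← Real.exp_nat_mul]; norm_num
    rw [e]
    calc ((1000 : ℕ) : ℝ) ≤ (2.7182818283 : ℝ) ^ 7 := by norm_num
      _ ≤ Real.exp 1 ^ 7 := by gcongr
  rw [div_le_iff₀ (by norm_num)]
  push_cast at h ⊢
  linarith

theorem zero_lower (N : ℕ) (hN : 1 ≤ N) :
    (N : ℝ) / 12 - 1 ≤ cnt 0 N +
      (∑ q ∈ small, ((q.divisors.card : ℝ) * ((N : ℝ) / (3 * ((q : ℝ) * (q - 1))) + 1)) +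
        (pairsAbove 1000 N).card) := by
  classical
  set C := (Finset.Icc 1 N).filter (fun n => n % 12 = 2) with hC
  have hCcard : N ≤ 12 * (C.card + 1) := by
    have h1 : (Finset.range (N / 12)).image (fun j => 12 * j + 2) ⊆ C := by
      intro n hn
      rw [Finset.mem_image] at hn
      obtain ⟨j, hj, rfl⟩ := hn
      rw [Finset.mem_range] at hj
      exact Finset.mem_filter.2 ⟨Finset.mem_Icc.2 (by omega), by omega⟩
    have h2 := Finset.card_le_card h1
    have hinj : Function.Injective (fun j : ℕ => 12 * j + 2) := by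
      intro a b h
      have h' : 12 * a + 2 = 12 * b + 2 := h
      omega
    rw [Finset.card_image_of_injective _ hinj, Finset.card_range] at h2
    omega
  have hsub : C ⊆ (Finset.Icc 1 N).filter (fun n => sizes n = 0) ∪
      ((small.biUnion fun q => (Finset.Icc 1 N).filter (fun n => n % 12 = 2 ∧ q < n ∧ Dv n q)) ∪
        (pairsAbove 1000 N).image Prod.fst) := by
    intro n hn
    obtain ⟨hn0, hn2⟩ := Finset.mem_filter.1 hn
    obtain ⟨hn1, hnN⟩ := Finset.mem_Icc.1 hn0
    refine Finset.mem_union.2 ?_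
    rw [Finset.mem_union]
    by_cases hs : sizes n = 0
    · exact Or.inl (Finset.mem_filter.2 ⟨Finset.mem_Icc.2 ⟨hn1, hnN⟩, hs⟩)
    · right
      rw [sizes_eq n N hnN, ← ne_eq, Finset.card_ne_zero] at hs
      obtain ⟨q, hq⟩ := hs
      rw [Finset.mem_filter, Finset.mem_Icc] at hq
      obtain ⟨⟨hq3, hqN⟩, hqn, hsys⟩ := hq
      have hd := (divisible_iff (by omega) hn1).1 (divisible_of_hasSystem hn1 hsys)
      have hf := class_facts hn2 hq3 hqn hd
      rcases Nat.lt_or_ge 1000 q with hbig | hsm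
      · right
        rw [Finset.mem_image]
        refine ⟨(n, q), ?_, rfl⟩
        simp only [pairsAbove, Finset.mem_filter, Finset.mem_product, Finset.mem_Icc]
        exact ⟨⟨⟨hn1, hnN⟩, by omega, hqN⟩, hqn, hd⟩
      · left
        rw [Finset.mem_biUnion]
        refine ⟨q, ?_, ?_⟩
        · exact mem_small.2 ⟨by omega, hq3, hf.1⟩
        · rw [Finset.mem_filter, Finset.mem_Icc]
          exact ⟨⟨hn1, hnN⟩, hn2, hqn, hd⟩
  have h1 := Finset.card_le_card hsub
  have h2 := h1.trans (Finset.card_union_le _ _)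
  have h3 : ((small.biUnion fun q => (Finset.Icc 1 N).filter
      (fun n => n % 12 = 2 ∧ q < n ∧ Dv n q)) ∪ (pairsAbove 1000 N).image Prod.fst).card ≤
      ∑ q ∈ small, ((Finset.Icc 1 N).filter (fun n => n % 12 = 2 ∧ q < n ∧ Dv n q)).card +
        (pairsAbove 1000 N).card := by
    refine (Finset.card_union_le _ _).trans (Nat.add_le_add Finset.card_biUnion_le ?_)
    exact Finset.card_image_le
  rw [← cnt_eq] at h2
  have h4 : (C.card : ℝ) ≤ cnt 0 N +
      (∑ q ∈ small, (((Finset.Icc 1 N).filter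
        (fun n => n % 12 = 2 ∧ q < n ∧ Dv n q)).card : ℝ) + (pairsAbove 1000 N).card) := by
    exact_mod_cast h2.trans (Nat.add_le_add_left h3 _)
  have h5 : ∑ q ∈ small, (((Finset.Icc 1 N).filter
        (fun n => n % 12 = 2 ∧ q < n ∧ Dv n q)).card : ℝ) ≤
      ∑ q ∈ small, ((q.divisors.card : ℝ) * ((N : ℝ) / (3 * ((q : ℝ) * (q - 1))) + 1)) := by
    refine Finset.sum_le_sum fun q hq => ?_
    have hq' := (mem_small.1 hq).2
    exact class_count q N hq'.1 hq'.2
  have h6 : (N : ℝ) ≤ 12 * (C.card + 1) := by exact_mod_cast hCcard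
  linarith

theorem zero_bounds {p : ℝ} (hp : Tendsto (fun N : ℕ => (cnt 0 N : ℝ) / N) atTop (𝓝 p)) :
    1 / 40 ≤ p ∧ p ≤ 2 / 3 := by
  classical
  constructor
  · -- lower bound
    set c : ℝ := 1 + ∑ q ∈ small, (q.divisors.card : ℝ) with hc
    have hlim : Tendsto (fun N : ℕ => (cnt 0 N : ℝ) / N + (c / N + (1 / 60 + (1 / 25 + rem N))))
        atTop (𝓝 (p + (0 + (1 / 60 + (1 / 25 + 0))))) :=
      hp.add ((tendsto_const_div_atTop_nhds_zero_nat c).add
        (tendsto_const_nhds.add (tendsto_const_nhds.add rem_tendsto)))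
    have hge : ∀ᶠ N : ℕ in atTop, (1 : ℝ) / 12 ≤
        (cnt 0 N : ℝ) / N + (c / N + (1 / 60 + (1 / 25 + rem N))) := by
      filter_upwards [eventually_ge_atTop 1] with N hN
      have hN0 : (0 : ℝ) < N := by exact_mod_cast hN
      have h1 := zero_lower N hN
      have h2 := pairs_ratio 1000 N (by norm_num) hN
      rw [div_le_iff₀ hN0] at h2
      have h3 : ∑ q ∈ small, ((q.divisors.card : ℝ) * ((N : ℝ) / (3 * ((q : ℝ) * (q - 1))) + 1)) =
          (N : ℝ) / 3 * ∑ q ∈ small, (q.divisors.card : ℝ) / ((q : ℝ) * (q - 1)) +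
            ∑ q ∈ small, (q.divisors.card : ℝ) := by
        rw [Finset.mul_sum, ← Finset.sum_add_distrib]
        refine Finset.sum_congr rfl fun q hq => ?_
        have hq3 : 3 ≤ q := (mem_small.1 hq).2.1
        have h3 : (3 : ℝ) ≤ q := by exact_mod_cast hq3
        have hp : (q : ℝ) * (q - 1) ≠ 0 := by nlinarith
        field_simp
      have h4 := mul_le_mul_of_nonneg_left small_sum (by positivity : (0 : ℝ) ≤ (N : ℝ) / 3)
      have h5 := eta_bound
      have h6 : (N : ℝ) / 12 ≤ cnt 0 N + (c + ((N : ℝ) / 60 + ((N : ℝ) / 25 + rem N * N))) := by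
        rw [h3] at h1
        have h7 : (eta 1000 + rem N) * N ≤ (N : ℝ) / 25 + rem N * N := by nlinarith
        rw [hc]
        linarith
      have h8 : (1 : ℝ) / 12 = ((N : ℝ) / 12) / N := by field_simp
      have h9 : (cnt 0 N : ℝ) / N + (c / N + (1 / 60 + (1 / 25 + rem N))) =
          (cnt 0 N + (c + ((N : ℝ) / 60 + ((N : ℝ) / 25 + rem N * N)))) / N := by
        field_simp
      rw [h8, h9]
      exact div_le_div_of_nonneg_right h6 hN0.le
    have := ge_of_tendsto hlim hge
    linarith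
  · -- upper bound
    have hlim := hp.add (good_tendsto 3 le_rfl)
    have hd : dens 3 = 1 / 3 := by
      unfold dens
      rw [if_pos le_rfl]
      have : Nat.primeFactors 3 = {3} := Nat.Prime.primeFactors (by norm_num)
      rw [this]
      norm_num
    rw [hd] at hlim
    have hle : ∀ᶠ N : ℕ in atTop, (cnt 0 N : ℝ) / N + (good 3 N : ℝ) / N ≤ 1 := by
      filter_upwards [eventually_ge_atTop 1] with N hN
      have hN0 : (0 : ℝ) < N := by exact_mod_cast hN
      rw [← add_div, div_le_one hN0]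
      have hdisj : Disjoint ((Finset.Icc 1 N).filter (fun n => sizes n = 0))
          ((Finset.Icc 1 N).filter (fun n => 3 < n ∧ HasSystem n 3)) := by
        rw [Finset.disjoint_left]
        intro n h1 h2
        rw [Finset.mem_filter, Finset.mem_Icc] at h1 h2
        have h3 := h1.2
        rw [sizes_eq n N h1.1.2, Finset.card_eq_zero] at h3
        have : (3 : ℕ) ∈ ((Finset.Icc 3 N).filter (fun q => q < n ∧ HasSystem n q)) := by
          rw [Finset.mem_filter, Finset.mem_Icc]
          exact ⟨⟨le_rfl, by omega⟩, h2.2⟩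
        rw [h3] at this
        exact absurd this (Finset.notMem_empty _)
      have h1 := Finset.card_union_of_disjoint hdisj
      have h2 : (((Finset.Icc 1 N).filter (fun n => sizes n = 0)) ∪
          ((Finset.Icc 1 N).filter (fun n => 3 < n ∧ HasSystem n 3))).card ≤ N := by
        have : ((Finset.Icc 1 N).filter (fun n => sizes n = 0)) ∪
          ((Finset.Icc 1 N).filter (fun n => 3 < n ∧ HasSystem n 3)) ⊆ Finset.Icc 1 N :=
          Finset.union_subset (Finset.filter_subset _ _) (Finset.filter_subset _ _)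
        have := Finset.card_le_card this
        rwa [Nat.card_Icc, Nat.add_sub_cancel] at this
      rw [h1, ← cnt_eq] at h2
      have h3 : cnt 0 N + good 3 N ≤ N := h2
      exact_mod_cast h3
    have := le_of_tendsto hlim hle
    linarith

end Pool.Agent.Q129.Stn
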